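import Pool.Agent.H3.RCR.Defs

/-!
# Project RCR: statements of the modules
-/

namespace Pool.Agent.H3.RCR

open Relation

/-! ## A. Abstract spheres -/

/-- A1: contraction basics -/
def A1Stmt : Prop := ∀ (F : Finset Tri) (u v : ℕ), Pre F → Ok F u v →
  Pre (contr F u v) ∧ verts (contr F u v) = (verts F).erase u ∧
  (contr F u v).card + 6 = F.card ∧
  (∀ a b, Adj (contr F u v) a b ↔
    a ≠ b ∧ ∃ a' b', Adj F a' b' ∧ sub1 u v a' = a ∧ sub1 u v b' = b) ∧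
  (∀ t, ¬ isV v t → ¬ isV u t → (t ∈ contr F u v ↔ t ∈ F)) ∧
  (∀ t ∈ F, ¬ isV u t → t ∈ contr F u v) ∧
  (∀ a b, (u, a, b) ∈ F → a ≠ v → b ≠ v → (v, a, b) ∈ contr F u v) ∧
  (∀ a b, (v, a, b) ∈ contr F u v → (v, a, b) ∈ F ∨ (u, a, b) ∈ F)

/-- A2: spheres are closed under contraction -/
def A2Stmt : Prop := ∀ (F : Finset Tri) (u v : ℕ), Sph F → Ok F u v → Sph (contr F u v)

/-- A3: ... and under un-contraction -/
def A3Stmt : Prop := ∀ (F : Finset Tri) (u v : ℕ), Pre F → Ok F u v → Sph (contr F u v) → Sph F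

/-- A4: a sphere is connected through its edges -/
def A4Stmt : Prop := ∀ F : Finset Tri, Sph F → DConn F

/-- A21: in a sphere with at least four vertices the two faces at an edge have different apexes;
a sphere has at least three vertices, and exactly three only if it is a double triangle -/
def A21Stmt : Prop := ∀ F : Finset Tri, Sph F →
  (4 ≤ (verts F).card → ∀ u v w, ¬ ((u, v, w) ∈ F ∧ (v, u, w) ∈ F)) ∧
  ((verts F).card < 4 → ∀ a b c, (a, b, c) ∈ F → F = rots (a, b, c) ∪ rots (a, c, b))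

/-- A5: every even set of edges is the boundary of a set of faces -/
def A5Stmt : Prop := ∀ F : Finset Tri, Sph F → ∀ R : ℕ → ℕ → Prop,
  (∀ a b, R a b → R b a) → (∀ a b, R a b → Adj F a b) →
  (∀ v, Even (Set.ncard {w | R v w})) →
  ∃ S ⊆ F, RotC S ∧ ∀ a b c d, (a, b, c) ∈ F → (b, a, d) ∈ F →
    (R a b ↔ ¬ ((a, b, c) ∈ S ↔ (b, a, d) ∈ S))

/-- A6: simple cycles have a left side, and the complement of the left side is the right side -/
def A6Stmt : Prop := ∀ F : Finset Tri, Sph F → ∀ (m : ℕ) (c : ZMod m → ℕ),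
  (Cyc F c → ∃ S, Side F c S) ∧
  (∀ S, Side F c S → Side F (fun i => c (-i)) (F \ S))

/-- A7: sides are connected; their vertices are inner vertices or lie on the cycle -/
def A7Stmt : Prop := ∀ F : Finset Tri, Sph F → ∀ (m : ℕ) (c : ZMod m → ℕ) (S : Finset Tri),
  Cyc F c → Side F c S → DConn S ∧
  (∀ v ∈ verts S, (∀ i, v ≠ c i) → ∀ p q, (v, p, q) ∈ F → (v, p, q) ∈ S) ∧
  (∀ i, c i ∈ verts S ∧ c i ∈ verts (F \ S))

/-- A8: Euler's formula for a side -/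
def A8Stmt : Prop := ∀ F : Finset Tri, Sph F → ∀ (m : ℕ) (c : ZMod m → ℕ) (S : Finset Tri),
  Cyc F c → Side F c S → 6 * (verts S).card = S.card + 3 * m + 6

/-- the 3-cycle `a b c` -/
def c3 (a b c : ℕ) : ZMod 3 → ℕ := fun i => if i = 0 then a else if i = 1 then b else c

/-- A0: translation between `Side3` and `Side`, and the facts A6, A7 for 3-cycles -/
def A0Stmt : Prop :=
  (∀ (F : Finset Tri) (a b c : ℕ) (S : Finset Tri), Pre F →
    (Side3 F a b c S ↔ Cyc F (c3 a b c) ∧ Side F (c3 a b c) S)) ∧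
  ∀ (F : Finset Tri) (a b c : ℕ), Sph F →
    (Adj F a b → Adj F b c → Adj F c a → ∃ S, Side3 F a b c S) ∧
    (∀ S, Side3 F a b c S → Side3 F b c a S ∧ Side3 F a c b (F \ S) ∧ DConn S ∧
      (∀ v ∈ verts S, v ≠ a → v ≠ b → v ≠ c → ∀ p q, (v, p, q) ∈ F → (v, p, q) ∈ S) ∧
      a ∈ verts S ∧ b ∈ verts S ∧ c ∈ verts S ∧
      a ∈ verts (F \ S) ∧ b ∈ verts (F \ S) ∧ c ∈ verts (F \ S) ∧
      ((∀ v ∈ verts S, v = a ∨ v = b ∨ v = c) → S = rots (a, b, c)))

/-- A9: a 3-cycle through an inner vertex of a side `S` of a 3-cycle has a side strictly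
inside `S` -/
def A9Stmt : Prop := ∀ (F : Finset Tri) (a b c : ℕ) (S : Finset Tri), Sph F → Side3 F a b c S →
  ∀ v x y, v ∈ verts S → v ≠ a → v ≠ b → v ≠ c → Adj F v x → Adj F x y → Adj F y v →
  ∃ R, R ⊂ S ∧ (Side3 F v x y R ∨ Side3 F v y x R)

/-- A10: a side of a 3-cycle with an inner vertex has a contractible edge at an inner vertex -/
def A10Stmt : Prop := ∀ (F : Finset Tri) (a b c : ℕ) (S : Finset Tri), Sph F → Side3 F a b c S →
  (∃ v ∈ verts S, v ≠ a ∧ v ≠ b ∧ v ≠ c) →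
  ∃ v ∈ verts S, v ≠ a ∧ v ≠ b ∧ v ≠ c ∧ ∃ x, Ok F v x

/-- A11: a side of a 3-cycle can be collapsed to a face, moving its inner vertices only -/
def A11Stmt : Prop := ∀ (F : Finset Tri) (a b c : ℕ) (S : Finset Tri), Sph F → Side3 F a b c S →
  Red {v | v ∈ verts S ∧ v ≠ a ∧ v ≠ b ∧ v ≠ c} {v | v ∈ verts S} F ((F \ S) ∪ rots (a, b, c))

/-- A12: every vertex has a contractible edge -/
def A12Stmt : Prop := ∀ F : Finset Tri, Sph F → 4 ≤ (verts F).card → ∀ v ∈ verts F, ∃ x, Ok F v x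

/-- A13: under a map of degree one, one side of a 3-cycle with a collapsed edge is degenerate -/
def A13Stmt : Prop := ∀ (f : ℕ → ℕ) (F G S : Finset Tri) (a b w : ℕ), Sph F → Sph G → Dom f F G →
  Side3 F a b w S → f a = f b →
  (∀ t ∈ S, ¬ Nd (mapT f t)) ∨ (∀ t ∈ F \ S, ¬ Nd (mapT f t))

/-- A14: realisations can be pulled back along maps of degree one -/
def A14Stmt : Prop := ∀ (f : ℕ → ℕ) (F G : Finset Tri) (o O : Tri) (p : ℕ → Pt) (T : Set ℕ),
  Sph F → Sph G → Dom f F G → o ∈ F → mapT f o = O → Real G O p → Set.InjOn f T →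
  (∀ x, isV x o → x ∈ T) → (∀ t ∈ T, ∃ a b, (t, a, b) ∈ F ∧ Nd (mapT f (t, a, b))) →
  ∃ p', Real F o p' ∧ ∀ t ∈ T, p' t = p (f t)

/-- A15: Fáry's theorem -/
def A15Stmt : Prop := ∀ (F : Finset Tri) (o : Tri), Sph F → o ∈ F → ∃ p, Real F o p

/-- A16: contractions away from a side of a 3-cycle do not see what is inside -/
def A16Stmt : Prop := ∀ (F S : Finset Tri) (a b c : ℕ) (U V : Set ℕ) (X' : Finset Tri),
  Sph F → Side3 F a b c S → (∀ v ∈ verts S, v ∉ U) → Red U V ((F \ S) ∪ rots (a, b, c)) X' →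
  ∃ F', Red U V F F' ∧ Side3 F' a b c S ∧ X' = (F' \ S) ∪ rots (a, b, c) ∧
    (verts F).card + (verts X').card = (verts F').card + (verts ((F \ S) ∪ rots (a, b, c))).card

/-- A17: what sequences of contractions preserve -/
def A17Stmt : Prop := ∀ (U V : Set ℕ) (F G : Finset Tri), Sph F → Red U V F G →
  Sph G ∧ (∀ t ∈ F, (∀ x, isV x t → x ∉ U) → t ∈ G) ∧ verts G ⊆ verts F ∧
  (∀ x ∈ verts F, x ∉ U → x ∈ verts G) ∧
  (∀ x y, x ∉ U → x ∉ V → y ∉ U → y ∉ V → (Adj G x y ↔ Adj F x y))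

/-- A18: a realisation can be pulled back along a sequence of contractions, moving only `U` -/
def A18Stmt : Prop := ∀ (U V : Set ℕ) (F G : Finset Tri) (o : Tri) (p : ℕ → Pt), Sph F →
  Red U V F G → o ∈ F → (∀ x, isV x o → x ∉ U) → Real G o p →
  ∃ p', Real F o p' ∧ ∀ x, x ∉ U → p' x = p x

/-- A19: a chord cuts a side into two sides -/
def A19Stmt : Prop := ∀ F : Finset Tri, Sph F → ∀ (m : ℕ) (c : ZMod m → ℕ) (S : Finset Tri),
  Cyc F c → Side F c S → ∀ (i : ZMod m) (l : ℕ) (z : ℕ), 2 ≤ l → l + 2 ≤ m →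
  (c i, c (i + (l : ZMod m)), z) ∈ S →
  ∃ S1 S2 : Finset Tri,
    Cyc F (fun k : ZMod (l + 1) => c (i + (k.val : ZMod m))) ∧
    Side F (fun k : ZMod (l + 1) => c (i + (k.val : ZMod m))) S1 ∧
    Cyc F (fun k : ZMod (m - l + 1) => c (i + (l : ZMod m) + (k.val : ZMod m))) ∧
    Side F (fun k : ZMod (m - l + 1) => c (i + (l : ZMod m) + (k.val : ZMod m))) S2 ∧
    Disjoint S1 S2 ∧ S1 ∪ S2 = S

/-! ## G. Geometry of realisations -/

/-- general position of `z` -/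
def Gen (F : Finset Tri) (p : ℕ → Pt) (z : Pt) : Prop :=
  (∀ v ∈ verts F, z.1 ≠ (p v).1) ∧ ∀ a b c, (a, b, c) ∈ F → orient (p a) (p b) z ≠ 0

open Classical in
/-- G1: a general point inside (outside) the outer triangle is covered exactly once (never) -/
def G1Stmt : Prop := ∀ (F : Finset Tri) (o : Tri) (p : ℕ → Pt) (z : Pt), Pre F → Real F o p →
  Gen F p z → (F.filter (fun t => InT p t z)).card = if InN p o z then 3 else 0

/-- G2: the faces have disjoint interiors, lie inside the outer triangle, and cover it -/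
def G2Stmt : Prop := ∀ (F : Finset Tri) (o : Tri) (p : ℕ → Pt), Pre F → Real F o p →
  (∀ s ∈ F, ∀ t ∈ F, ∀ z, InT p s z → InT p t z → t ∈ rots s) ∧
  (∀ t ∈ F, ∀ z, InT p t z → InN p o z) ∧
  (∀ z, InN p o z → ∃ t ∈ F, t ∉ rots o ∧ 0 ≤ orient (p t.1) (p t.2.1) z ∧
    0 ≤ orient (p t.2.1) (p t.2.2) z ∧ 0 ≤ orient (p t.2.2) (p t.1) z)

/-- G3: edges at a vertex have different directions -/
def G3Stmt : Prop := ∀ (F : Finset Tri) (o : Tri) (p : ℕ → Pt), Pre F → Real F o p →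
  ∀ a x y, Adj F a x → Adj F a y → x ≠ y → ∀ r : ℝ, 0 < r → p y - p a ≠ r • (p x - p a)

/-- G4: no edge enters the angle of a face -/
def G4Stmt : Prop := ∀ (F : Finset Tri) (o : Tri) (p : ℕ → Pt), Pre F → Real F o p →
  ∀ a b c d, (a, b, c) ∈ F → (a, b, c) ∉ rots o → Adj F a d → d ≠ b → d ≠ c →
  ¬ (0 ≤ dt (p b - p a) (p d - p a) ∧ 0 ≤ dt (p d - p a) (p c - p a))

/-- G5: the faces at a vertex that is not on the outer face cover all directions -/
def G5Stmt : Prop := ∀ (F : Finset Tri) (o : Tri) (p : ℕ → Pt), Sph F → Real F o p →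
  ∀ v ∈ verts F, ¬ isV v o → ∀ D : Pt, D ≠ 0 →
  ∃ x y, (v, x, y) ∈ F ∧ 0 ≤ dt (p x - p v) D ∧ 0 < dt D (p y - p v)

/-- G6: a realisation is an embedding -/
def G6Stmt : Prop := ∀ (F : Finset Tri) (o : Tri) (p : ℕ → Pt), Sph F → Real F o p →
  (∀ a ∈ verts F, ∀ b ∈ verts F, p a = p b → a = b) ∧
  (∀ v ∈ verts F, ¬ isV v o → InN p o (p v)) ∧
  (∀ a b c, Adj F a b → c ∈ verts F → p c ∉ openSegment ℝ (p a) (p b)) ∧
  (∀ a b c d z, Adj F a b → Adj F c d → z ∈ openSegment ℝ (p a) (p b) →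
    z ∈ openSegment ℝ (p c) (p d) → (a = c ∧ b = d) ∨ (a = d ∧ b = c)) ∧
  (∀ t ∈ F, ∀ v ∈ verts F, ¬ InT p t (p v)) ∧
  (∀ t ∈ F, ∀ a b z, Adj F a b → z ∈ openSegment ℝ (p a) (p b) → ¬ InT p t z)

/-- G7: un-contraction -/
def G7Stmt : Prop := ∀ (F : Finset Tri) (u v : ℕ) (o : Tri) (p : ℕ → Pt), Sph F → Ok F u v →
  o ∈ F → ¬ isV u o → Real (contr F u v) o p → ∃ q : Pt, Real F o (Function.update p u q)

/-- G8: a vertex of degree at most five can be contracted along one of its edges, keeping all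
other points -/
def G8Stmt : Prop := ∀ (F : Finset Tri) (o : Tri) (p : ℕ → Pt) (v : ℕ), Sph F → Real F o p →
  v ∈ verts F → ¬ isV v o → deg F v ≤ 5 → ∃ x, Ok F v x ∧ Real (contr F v x) o p

/-- G9: insertion of a point -/
def G9Stmt : Prop := ∀ (F : Finset Tri) (o : Tri) (p : ℕ → Pt) (x : ℕ) (z : Pt), Sph F →
  Real F o p → x ∉ verts F → InN p o z → (∀ v ∈ verts F, p v ≠ z) →
  ∃ G, Sph G ∧ Real G o (Function.update p x z) ∧ verts G = insert x (verts F)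

/-- G10: the flip of the diagonal `a b` of a strictly convex quadrilateral `a d b c` -/
def G10Stmt : Prop := ∀ (F : Finset Tri) (o : Tri) (p : ℕ → Pt) (a b c d : ℕ), Sph F →
  Real F o p → (a, b, c) ∈ F → (b, a, d) ∈ F → (a, b, c) ∉ rots o → (b, a, d) ∉ rots o →
  0 < orient (p a) (p d) (p c) → 0 < orient (p d) (p b) (p c) →
  ∃ G, Sph G ∧ Real G o p ∧ verts G = verts F ∧ Adj G c d ∧ ¬ Adj G a b ∧
    ∀ x y, (Adj G x y ↔ Adj F x y) ∨ (x = a ∧ y = b) ∨ (x = b ∧ y = a) ∨ (x = c ∧ y = d) ∨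
      (x = d ∧ y = c)

/-- the edge `w l` crosses the open segment `a b` from left (`w`) to right (`l`) -/
def Xing (p : ℕ → Pt) (a b w l : ℕ) : Prop :=
  0 < orient (p a) (p b) (p w) ∧ orient (p a) (p b) (p l) < 0 ∧
  orient (p w) (p l) (p a) < 0 ∧ 0 < orient (p w) (p l) (p b)

/-- G11: the strip of faces crossed by a segment without vertices in its interior. The left face
`(w, l, c)` of a crossing edge has its third corner at `b`, or it has exactly one more crossing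
edge; likewise for the right face `(l, w, c)` and `a` -/
def G11Stmt : Prop := ∀ (F : Finset Tri) (o : Tri) (p : ℕ → Pt) (a b : ℕ), Sph F → Real F o p →
  a ∈ verts F → b ∈ verts F → a ≠ b → (∀ c ∈ verts F, p c ∉ openSegment ℝ (p a) (p b)) →
  (∀ w l c, Xing p a b w l → (w, l, c) ∈ F → (w, l, c) ∉ rots o ∧
    (c = b ∨ (0 < orient (p a) (p b) (p c) ∧ Xing p a b c l) ∨
      (orient (p a) (p b) (p c) < 0 ∧ Xing p a b w c))) ∧
  (∀ w l c, Xing p a b w l → (l, w, c) ∈ F → (l, w, c) ∉ rots o ∧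
    (c = a ∨ (0 < orient (p a) (p b) (p c) ∧ Xing p a b c l) ∨
      (orient (p a) (p b) (p c) < 0 ∧ Xing p a b w c))) ∧
  ((∀ w l, Adj F w l → ¬ Xing p a b w l) → Adj F a b)

/-- G12: a segment can be made an edge by flips, all edges not crossing it are kept -/
def G12Stmt : Prop := ∀ (F : Finset Tri) (o : Tri) (p : ℕ → Pt) (a b : ℕ), Sph F → Real F o p →
  a ∈ verts F → b ∈ verts F → a ≠ b → (∀ c ∈ verts F, p c ∉ openSegment ℝ (p a) (p b)) →
  ∃ G, Sph G ∧ Real G o p ∧ verts G = verts F ∧ Adj G a b ∧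
    ∀ x y, Adj F x y → (∀ z, z ∈ openSegment ℝ (p x) (p y) → z ∉ openSegment ℝ (p a) (p b)) →
      Adj G x y

/-- G13: constrained triangulations exist -/
def G13Stmt : Prop := ∀ (S : Finset ℕ) (p : ℕ → Pt) (o : Tri) (E : Finset (ℕ × ℕ)),
  (∀ x, isV x o → x ∈ S) → orient (p o.1) (p o.2.1) (p o.2.2) < 0 →
  Set.InjOn p S → (∀ s ∈ S, ¬ isV s o → InN p o (p s)) →
  (∀ e ∈ E, e.1 ∈ S ∧ e.2 ∈ S ∧ e.1 ≠ e.2 ∧ ∀ s ∈ S, p s ∉ openSegment ℝ (p e.1) (p e.2)) →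
  (∀ e ∈ E, ∀ f ∈ E, ∀ z, z ∈ openSegment ℝ (p e.1) (p e.2) →
    z ∈ openSegment ℝ (p f.1) (p f.2) → e = f ∨ e = (f.2, f.1)) →
  ∃ F, Sph F ∧ Real F o p ∧ verts F = S ∧ ∀ e ∈ E, Adj F e.1 e.2

/-- G14: gluing two realisations along a 3-cycle -/
def G14Stmt : Prop := ∀ (F S : Finset Tri) (a b c : ℕ) (o : Tri) (p1 p2 : ℕ → Pt), Sph F →
  Side3 F a b c S → o ∈ F → o ∉ S → Real ((F \ S) ∪ rots (a, b, c)) o p1 →
  Real (S ∪ rots (a, c, b)) (a, c, b) p2 →
  ∃ p, Real F o p ∧ (∀ v ∈ verts (F \ S), p v = p1 v) ∧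
    ∀ t : Tri, (∀ x, isV x t → x ∈ verts S) → Btw p2 t → Btw p t

/-- G15: the triangulated complement of an inner disc -/
def G15Stmt : Prop := ∀ (F : Finset Tri) (o : Tri) (p : ℕ → Pt) (b : ℕ) (C : ZMod b → ℕ)
  (D : Finset Tri), Sph F → Real F o p → Cyc F C → Side F (fun i => C (-i)) D → o ∉ D →
  ∃ Y, Sph Y ∧ Real Y o p ∧ D ⊆ Y ∧ Side Y (fun i => C (-i)) D ∧ o ∉ D ∧
    ∀ v ∈ verts (Y \ D), (∃ i, v = C i) ∨ isV v o

/-- G16: the triangulated complement of an outer disc -/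
def G16Stmt : Prop := ∀ (F : Finset Tri) (o : Tri) (p : ℕ → Pt) (b : ℕ) (C : ZMod b → ℕ)
  (D : Finset Tri), Sph F → Real F o p → Cyc F C → Side F (fun i => C (-i)) D → o ∈ D →
  ∃ Y, Sph Y ∧ Real Y o p ∧ D ⊆ Y ∧ Side Y (fun i => C (-i)) D ∧
    ∀ v ∈ verts (Y \ D), ∃ i, v = C i

/-- G17: a side of a 3-cycle is realised by the restriction -/
def G17Stmt : Prop := ∀ (F S : Finset Tri) (a b c : ℕ) (o : Tri) (p : ℕ → Pt), Sph F →
  Real F o p → Side3 F a b c S →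
  (o ∉ S → Real (S ∪ rots (a, c, b)) (a, c, b) p) ∧
  (o ∈ S → Real (S ∪ rots (a, c, b)) o p)

end Pool.Agent.H3.RCR
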