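import Mathlib

/-!
# Project RCR (MP_d95f39_lc): definitions

Triangulated spheres as sets of oriented triangles (triples of natural numbers, closed under
rotation), contractions, straight realisations in the plane.
-/

namespace Pool.Agent.H3.RCR

/-- oriented triangles with labelled corners -/
abbrev Tri := ℕ × ℕ × ℕ

/-- points of the plane -/
abbrev Pt := ℝ × ℝ

/-! ### Triangulated spheres -/

/-- the vertices of a rotation-closed set of triangles -/
def verts (F : Finset Tri) : Finset ℕ := F.image (fun t => t.1)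

/-- `(a, b)` is a dart (oriented edge) of `F`; its left face is the unique `(a, b, c) ∈ F` -/
def Adj (F : Finset Tri) (a b : ℕ) : Prop := ∃ c, (a, b, c) ∈ F

/-- closed under rotation -/
def RotC (S : Finset Tri) : Prop := ∀ a b c, (a, b, c) ∈ S → (b, c, a) ∈ S

/-- the three rotations of a triangle -/
def rots (t : Tri) : Finset Tri := {(t.1, t.2.1, t.2.2), (t.2.1, t.2.2, t.1), (t.2.2, t.1, t.2.1)}

/-- `x` is a corner of `t` -/
def isV (x : ℕ) (t : Tri) : Prop := x = t.1 ∨ x = t.2.1 ∨ x = t.2.2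

/-- an oriented closed simplicial surface, possibly with pinched vertices -/
structure Pre (F : Finset Tri) : Prop where
  rot : RotC F
  ne : ∀ a b c, (a, b, c) ∈ F → a ≠ b
  uniq : ∀ a b c d, (a, b, c) ∈ F → (a, b, d) ∈ F → c = d
  opp : ∀ a b c, (a, b, c) ∈ F → ∃ d, (b, a, d) ∈ F

/-- an oriented triangulated sphere -/
structure Sph (F : Finset Tri) : Prop extends Pre F where
  link : ∀ v y z, Adj F v y → Adj F v z → Relation.ReflTransGen (fun p q => (v, p, q) ∈ F) y z
  conn : ∀ a b, a ∈ verts F → b ∈ verts F → Relation.ReflTransGen (Adj F) a b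
  euler : F.card + 12 = 6 * (verts F).card

/-- the degree of a vertex -/
def deg (F : Finset Tri) (v : ℕ) : ℕ := (F.filter (fun t => t.1 = v)).card

/-- the edge `u v` may be contracted -/
structure Ok (F : Finset Tri) (u v : ℕ) : Prop where
  adj : Adj F u v
  apex : ∀ w, Adj F u w → Adj F v w → (u, v, w) ∈ F ∨ (v, u, w) ∈ F
  dist : ∀ w, ¬ ((u, v, w) ∈ F ∧ (v, u, w) ∈ F)

/-- apply a map of vertices to a triangle -/
def mapT (g : ℕ → ℕ) (t : Tri) : Tri := (g t.1, g t.2.1, g t.2.2)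

/-- three different corners -/
def Nd (t : Tri) : Prop := t.1 ≠ t.2.1 ∧ t.2.1 ≠ t.2.2 ∧ t.2.2 ≠ t.1

instance (t : Tri) : Decidable (Nd t) := by unfold Nd; infer_instance

/-- the image of a set of triangles, degenerate triangles removed -/
def quo (g : ℕ → ℕ) (F : Finset Tri) : Finset Tri := (F.image (mapT g)).filter Nd

/-- the map moving `u` to `v` -/
def sub1 (u v x : ℕ) : ℕ := if x = u then v else x

/-- the contraction of `u` to `v` (the vertex `u` disappears) -/
def contr (F : Finset Tri) (u v : ℕ) : Finset Tri := quo (sub1 u v) F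

/-- one allowed contraction, moving a vertex of `U` to a vertex of `V` -/
def Step (U V : Set ℕ) (F G : Finset Tri) : Prop := ∃ u v, u ∈ U ∧ v ∈ V ∧ Ok F u v ∧ G = contr F u v

/-- a sequence of allowed contractions -/
def Red (U V : Set ℕ) : Finset Tri → Finset Tri → Prop := Relation.ReflTransGen (Step U V)

/-! ### Regions, cycles, sides -/

/-- `(a, b)` is a boundary dart of `S`: its left face is in `S`, its right face is in `F`, not
in `S` -/
def Jump (F S : Finset Tri) (a b : ℕ) : Prop :=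
  (∃ c, (a, b, c) ∈ S) ∧ ∃ d, (b, a, d) ∈ F ∧ (b, a, d) ∉ S

/-- a simple cycle -/
structure Cyc (F : Finset Tri) {m : ℕ} (c : ZMod m → ℕ) : Prop where
  three : 3 ≤ m
  inj : Function.Injective c
  adj : ∀ i, Adj F (c i) (c (i + 1))

/-- `S` is the left side of the cycle `c` -/
structure Side (F : Finset Tri) {m : ℕ} (c : ZMod m → ℕ) (S : Finset Tri) : Prop where
  sub : S ⊆ F
  rot : RotC S
  jump : ∀ a b, Jump F S a b ↔ ∃ i, a = c i ∧ b = c (i + 1)

/-- `S` is the left side of the 3-cycle `a b c` -/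
structure Side3 (F : Finset Tri) (a b c : ℕ) (S : Finset Tri) : Prop where
  ab : Adj F a b
  bc : Adj F b c
  ca : Adj F c a
  sub : S ⊆ F
  rot : RotC S
  jump : ∀ x y, Jump F S x y ↔ (x = a ∧ y = b) ∨ (x = b ∧ y = c) ∨ (x = c ∧ y = a)

/-- `S` is connected through its inner edges: a property of triangles that is passed on by
rotations and across edges with both faces in `S` holds for all or none of `S` -/
def DConn (S : Finset Tri) : Prop := ∀ P : Tri → Prop,
  (∀ a b c, (a, b, c) ∈ S → P (a, b, c) → P (b, c, a)) →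
  (∀ a b c d, (a, b, c) ∈ S → (b, a, d) ∈ S → P (a, b, c) → P (b, a, d)) →
  ∀ s ∈ S, ∀ t ∈ S, P s → P t

/-- a simplicial map `F → G` such that every triangle of `G` is covered exactly once and all
other triangles are degenerate -/
structure Dom (f : ℕ → ℕ) (F G : Finset Tri) : Prop where
  adj : ∀ a b, Adj F a b → f a = f b ∨ Adj G (f a) (f b)
  face : ∀ t ∈ F, Nd (mapT f t) → mapT f t ∈ G
  surj : ∀ s ∈ G, ∃ t ∈ F, mapT f t = s
  uniq : ∀ t ∈ F, ∀ t' ∈ F, mapT f t ∈ G → mapT f t = mapT f t' → t = t'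

/-! ### Geometry -/

/-- the determinant of two vectors -/
def dt (X Y : Pt) : ℝ := X.1 * Y.2 - X.2 * Y.1

/-- twice the signed area of the triangle `P Q R` -/
def orient (P Q R : Pt) : ℝ := dt (Q - P) (R - P)

/-- `p` is a straight realisation of `F` with outer face `o`: the outer face is negatively
oriented, all others positively -/
structure Real (F : Finset Tri) (o : Tri) (p : ℕ → Pt) : Prop where
  mem : o ∈ F
  neg : orient (p o.1) (p o.2.1) (p o.2.2) < 0
  pos : ∀ t ∈ F, t ∉ rots o → 0 < orient (p t.1) (p t.2.1) (p t.2.2)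

/-- `z` is strictly inside the positively oriented triangle `t` -/
def InT (p : ℕ → Pt) (t : Tri) (z : Pt) : Prop :=
  0 < orient (p t.1) (p t.2.1) z ∧ 0 < orient (p t.2.1) (p t.2.2) z ∧
    0 < orient (p t.2.2) (p t.1) z

/-- `z` is strictly inside the negatively oriented triangle `t` -/
def InN (p : ℕ → Pt) (t : Tri) (z : Pt) : Prop :=
  orient (p t.1) (p t.2.1) z < 0 ∧ orient (p t.2.1) (p t.2.2) z < 0 ∧
    orient (p t.2.2) (p t.1) z < 0

/-- `p y` is strictly between `p x` and `p z` -/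
def Btw (p : ℕ → Pt) (t : Tri) : Prop :=
  p t.1 ≠ p t.2.2 ∧ p t.2.1 ∈ openSegment ℝ (p t.1) (p t.2.2)

/-- `F` has a realisation with outer face `o` in which all triples of `Ch` are straight -/
def Rlz (F : Finset Tri) (o : Tri) (Ch : Finset Tri) : Prop :=
  ∃ p, Real F o p ∧ ∀ t ∈ Ch, Btw p t

/-- an instance: a sphere with an outer face, terminals and straight triples of terminals -/
structure InstOk (F : Finset Tri) (o : Tri) (T : Finset ℕ) (Ch : Finset Tri) : Prop where
  sph : Sph F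
  mem : o ∈ F
  oT : ∀ x, isV x o → x ∈ T
  sub : T ⊆ verts F
  ch : ∀ t ∈ Ch, t.1 ∈ T ∧ t.2.1 ∈ T ∧ t.2.2 ∈ T ∧ Adj F t.1 t.2.1 ∧ Adj F t.2.1 t.2.2

/-! ### Basic lemmas -/

theorem mem_rots {t s : Tri} : s ∈ rots t ↔ s = (t.1, t.2.1, t.2.2) ∨ s = (t.2.1, t.2.2, t.1) ∨
    s = (t.2.2, t.1, t.2.1) := by
  simp [rots]

theorem self_mem_rots (t : Tri) : t ∈ rots t := by simp [rots]

theorem mem_verts {F : Finset Tri} {v : ℕ} : v ∈ verts F ↔ ∃ b c, (v, b, c) ∈ F := by
  simp only [verts, Finset.mem_image]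
  constructor
  · rintro ⟨⟨a, b, c⟩, h, rfl⟩; exact ⟨b, c, h⟩
  · rintro ⟨b, c, h⟩; exact ⟨_, h, rfl⟩

theorem mem_verts' {F : Finset Tri} {v : ℕ} : v ∈ verts F ↔ ∃ b, Adj F v b := mem_verts

theorem mem_quo {g : ℕ → ℕ} {F : Finset Tri} {s : Tri} :
    s ∈ quo g F ↔ Nd s ∧ ∃ t ∈ F, mapT g t = s := by
  simp only [quo, Finset.mem_filter, Finset.mem_image]
  tauto

theorem quo_quo (g h : ℕ → ℕ) (F : Finset Tri) : quo g (quo h F) = quo (g ∘ h) F := by
  ext s
  simp only [mem_quo]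
  constructor
  · rintro ⟨hs, t, ⟨ht, t', ht', rfl⟩, rfl⟩
    exact ⟨hs, t', ht', rfl⟩
  · rintro ⟨hs, t, ht, rfl⟩
    refine ⟨hs, mapT h t, ⟨?_, t, ht, rfl⟩, rfl⟩
    obtain ⟨h1, h2, h3⟩ := hs
    exact ⟨fun e => h1 (congrArg g e), fun e => h2 (congrArg g e), fun e => h3 (congrArg g e)⟩

namespace Pre

variable {F : Finset Tri} (hF : Pre F)
include hF

theorem rot2 {a b c : ℕ} (h : (a, b, c) ∈ F) : (c, a, b) ∈ F := hF.rot _ _ _ (hF.rot _ _ _ h)

theorem nd {a b c : ℕ} (h : (a, b, c) ∈ F) : a ≠ b ∧ b ≠ c ∧ c ≠ a :=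
  ⟨hF.ne _ _ _ h, hF.ne _ _ _ (hF.rot _ _ _ h), hF.ne _ _ _ (hF.rot2 h)⟩

theorem adj_symm {a b : ℕ} (h : Adj F a b) : Adj F b a := by
  obtain ⟨c, hc⟩ := h
  exact hF.opp _ _ _ hc

theorem adj_comm {a b : ℕ} : Adj F a b ↔ Adj F b a := ⟨hF.adj_symm, hF.adj_symm⟩

theorem adj_ne {a b : ℕ} (h : Adj F a b) : a ≠ b := by
  obtain ⟨c, hc⟩ := h
  exact hF.ne _ _ _ hc

omit hF in
theorem mem_left {a b : ℕ} (h : Adj F a b) : a ∈ verts F := mem_verts'.2 ⟨b, h⟩

theorem mem_right {a b : ℕ} (h : Adj F a b) : b ∈ verts F := mem_left (hF.adj_symm h)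

theorem uniq' {a b c d : ℕ} (h : (a, b, c) ∈ F) (h' : (d, b, c) ∈ F) : a = d :=
  hF.uniq _ _ _ _ (hF.rot _ _ _ h) (hF.rot _ _ _ h')

/-- the predecessor of a neighbour in the link of `v` -/
theorem pred {v q : ℕ} (h : Adj F v q) : ∃ p, (v, p, q) ∈ F := by
  obtain ⟨p, hp⟩ := hF.adj_symm h
  exact ⟨p, hF.rot _ _ _ hp⟩

end Pre

end Pool.Agent.H3.RCR
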