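import Pool.Agent.H3.RCR.Defs
import Pool.Prelude.Def_F_458e953d

/-!
# Project RCR: definitions, part 2 (annuli, rings, sweeps, walks, drawings, the problem)
-/

namespace Pool.Agent.H3.RCR

/-! ### Annuli -/

/-- an inner vertex of the annulus `K \ D` -/
def IntV (F D K : Finset Tri) (x : ℕ) : Prop := x ∈ verts K ∧ x ∉ verts D ∧ x ∉ verts (F \ K)

/-- `D ⊆ K` are discs; `K \ D` is an annulus with inner boundary `C` (of length `b`), on which
`d = 0` and `θ` is the position, and with outer boundary at `d = N`. The maps `θ` and `d` change by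
at most one along the edges of the annulus. -/
structure Ann (F : Finset Tri) (b N : ℕ) (C : ZMod b → ℕ) (D K : Finset Tri) (θ : ℕ → ZMod b)
    (d : ℕ → ℤ) : Prop where
  cyc : Cyc F C
  sideD : Side F (fun i => C (-i)) D
  sub : D ⊆ K
  sideK : ∃ (z : ℕ) (Z : ZMod z → ℕ), Cyc F Z ∧ Side F (fun i => Z (-i)) K ∧ ∀ i, d (Z i) = N
  thC : ∀ i, θ (C i) = i
  dC : ∀ i, d (C i) = 0
  thA : ∀ x y c, (x, y, c) ∈ K \ D → θ y = θ x ∨ θ y = θ x + 1 ∨ θ x = θ y + 1
  dA : ∀ x y c, (x, y, c) ∈ K \ D → |d y - d x| ≤ 1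
  chC : ∀ i j, Adj F (C i) (C j) → j = i + 1 ∨ i = j + 1
  chK : ∀ x y, x ∈ verts K → x ∈ verts (F \ K) → y ∈ verts K → y ∈ verts (F \ K) → Adj F x y →
    ∃ c, (x, y, c) ∈ K \ D ∨ (y, x, c) ∈ K \ D

/-- the state reached by the reductions of an annulus -/
structure Tight (F : Finset Tri) (b N : ℕ) (C : ZMod b → ℕ) (D K : Finset Tri) (θ : ℕ → ZMod b)
    (d : ℕ → ℤ) : Prop extends Ann F b N C D K θ d where
  /-- no separating triangle through an inner vertex -/
  tri : ∀ x y z, IntV F D K x → Adj F x y → Adj F y z → Adj F z x → (x, y, z) ∈ F ∨ (x, z, y) ∈ F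
  /-- no edge at an inner vertex with equal `θ` and equal `d`, for all possible `θ` and `d` -/
  dz : ∀ θ' d', Ann F b N C D K θ' d' → ∀ x y, IntV F D K x → Adj F x y →
    ¬ (θ' x = θ' y ∧ d' x = d' y)
  /-- no chords of the outer boundary -/
  chZ : ∀ x y, x ∈ verts K → x ∈ verts (F \ K) → y ∈ verts K → y ∈ verts (F \ K) → Adj F x y →
    Jump F K x y ∨ Jump F K y x
  dr : ∀ x ∈ verts (K \ D), 0 ≤ d x ∧ d x ≤ N
  /-- every vertex of the annulus that is not on `C` has a neighbour with smaller `θ` -/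
  low : ∀ x ∈ verts (K \ D), (∀ i, x ≠ C i) →
    ∃ y, (∃ c, (x, y, c) ∈ K \ D ∨ (y, x, c) ∈ K \ D) ∧ θ x = θ y + 1

/-- a thick stack of `M + 1` disjoint rings of length `b` around the disc `D`; consecutive rings
are joined by quadrilaterals with one diagonal -/
structure Rings (G : Finset Tri) (b M : ℕ) (lam : ℕ → ZMod b → ℕ) (D : Finset Tri) : Prop where
  inj : ∀ j ≤ M, ∀ j' ≤ M, ∀ i i', lam j i = lam j' i' → j = j' ∧ i = i'
  side : Side G (fun i => lam 0 (-i)) D
  new : ∀ j, 1 ≤ j → j ≤ M → ∀ i, lam j i ∉ verts D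
  quad : ∀ j < M, ∀ i,
    ((lam j i, lam j (i + 1), lam (j + 1) i) ∈ G ∧
      (lam j (i + 1), lam (j + 1) (i + 1), lam (j + 1) i) ∈ G) ∨
    ((lam j i, lam j (i + 1), lam (j + 1) (i + 1)) ∈ G ∧
      (lam j i, lam (j + 1) (i + 1), lam (j + 1) i) ∈ G)

/-- the width needed to unwind a cycle of length `b` -/
def Lb (b : ℕ) : ℕ := b * (b + 4)

/-- the width of the annuli -/
def Nb (b : ℕ) : ℕ := Lb b + 2

/-! ### Sweeps -/

/-- the rotations of a nondegenerate triangle, nothing for a degenerate one -/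
def crs (t : Tri) : Finset Tri := if Nd t then rots t else ∅

/-- one slot of the closed walk `w` is moved; `X` are the faces crossed -/
def SM (Y : Finset Tri) {b : ℕ} (w w' : ZMod b → ℕ) (X : Finset Tri) : Prop :=
  ∃ (i : ZMod b) (q : ℕ), w' = Function.update w i q ∧ (w i = q ∨ Adj Y (w i) q) ∧
    (Nd (w (i - 1), w i, q) → (w (i - 1), w i, q) ∈ Y) ∧
    (Nd (w i, w (i + 1), q) → (w i, w (i + 1), q) ∈ Y) ∧
    X = crs (w (i - 1), w i, q) ∪ crs (w i, w (i + 1), q)

/-- the closed walk `w` runs once around the boundary of `R`, with `R` on its left -/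
structure Par (Y : Finset Tri) {b : ℕ} (w : ZMod b → ℕ) (R : Finset Tri) : Prop where
  step : ∀ i, w i = w (i + 1) ∨ Jump Y R (w i) (w (i + 1))
  all : ∀ x y, Jump Y R x y → ∃ i, x = w i ∧ y = w (i + 1)
  uniq : ∀ i j, w i ≠ w (i + 1) → w i = w j → w (i + 1) = w (j + 1) → i = j

/-- a sweep of the region `(Y \ D)` from its boundary `C` to its face `O`, in `L` slot moves -/
structure Sweep (Y D : Finset Tri) (b L : ℕ) (C : ZMod b → ℕ) (O : Tri) (w : ℕ → ZMod b → ℕ)
    (X : ℕ → Finset Tri) : Prop where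
  zero : w 0 = C
  move : ∀ j < L, SM Y (w j) (w (j + 1)) (X j)
  adj : ∀ j ≤ L, ∀ i, w j i = w j (i + 1) ∨ Adj Y (w j i) (w j (i + 1))
  disj : ∀ j < L, ∀ j' < L, j ≠ j' → Disjoint (X j) (X j')
  cover : ∀ t, (∃ j < L, t ∈ X j) ↔ (t ∈ Y \ D ∧ t ∉ rots O)
  last : Par Y (w L) (rots O)

/-! ### Walks -/

/-- a closed walk of length `n` with vertices in `R` -/
structure CWalk (F : Finset Tri) (R : Set ℕ) (n : ℕ) (w : ℕ → ℕ) : Prop where
  adj : ∀ i < n, Adj F (w i) (w (i + 1))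
  mem : ∀ i ≤ n, w i ∈ R
  closed : w n = w 0

/-- the sum of a function of darts along a walk -/
def wsum (ψ : ℕ → ℕ → ℤ) (n : ℕ) (w : ℕ → ℕ) : ℤ := ∑ i ∈ Finset.range n, ψ (w i) (w (i + 1))

/-- a winding form: closed except at the faces `f1`, `f2` -/
structure Wind (F : Finset Tri) (f1 f2 : Tri) (ψ : ℕ → ℕ → ℤ) : Prop where
  anti : ∀ a b, ψ a b = - ψ b a
  curl : ∀ t ∈ F, ψ t.1 t.2.1 + ψ t.2.1 t.2.2 + ψ t.2.2 t.1 =
    (if t ∈ rots f1 then 1 else 0) - (if t ∈ rots f2 then 1 else 0)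

open Classical in
/-- balls around a set of vertices -/
noncomputable def ball (F : Finset Tri) (T : Finset ℕ) : ℕ → Finset ℕ
  | 0 => T
  | n + 1 => ball F T n ∪ (verts F).filter (fun y => ∃ x ∈ ball F T n, Adj F x y)

/-- the data of a group of terminals: a disc `D` inside a disc `K`, with an annulus between -/
structure GD where
  b : ℕ
  C : ZMod b → ℕ
  D : Finset Tri
  K : Finset Tri
  θ : ℕ → ZMod b
  d : ℕ → ℤ

/-- the group is separated by a thick annulus in `F` -/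
def GD.Good (g : GD) (F : Finset Tri) : Prop :=
  3 ≤ g.b ∧ Ann F g.b (Nb g.b) g.C g.D g.K g.θ g.d

/-! ### Drawings and the decision problem -/

/-- `p` is a straight-line drawing of `G`: the vertices are different points, and no edge contains
a vertex other than its two ends -/
def IsDrawing {n : ℕ} (G : SimpleGraph (Fin n)) (p : Fin n → Pt) : Prop :=
  Function.Injective p ∧ ∀ a b c, G.Adj a b → p c ∈ segment ℝ (p a) (p b) → c = a ∨ c = b

/-- the number of crossings: unordered pairs of non-adjacent edges whose segments intersect -/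
noncomputable def crossings {n : ℕ} (G : SimpleGraph (Fin n)) (p : Fin n → Pt) : ℕ :=
  Set.ncard {q : Sym2 (Sym2 (Fin n)) | ∃ a b c d : Fin n, q = s(s(a, b), s(c, d)) ∧
    G.Adj a b ∧ G.Adj c d ∧ a ≠ c ∧ a ≠ d ∧ b ≠ c ∧ b ≠ d ∧
    (segment ℝ (p a) (p b) ∩ segment ℝ (p c) (p d)).Nonempty}

/-- the rectilinear crossing number -/
noncomputable def rcr {n : ℕ} (G : SimpleGraph (Fin n)) : ℕ :=
  sInf {m | ∃ p : Fin n → Pt, IsDrawing G p ∧ crossings G p = m}

/-- the graph with `⌊√|x|⌋` vertices whose adjacency matrix is written, row by row, in the bit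
string `x` (an edge is present if one of its two entries is one) -/
def graphOf (x : List Bool) : SimpleGraph (Fin (Nat.sqrt x.length)) where
  Adj a b := a ≠ b ∧ (x.getD (a.val * Nat.sqrt x.length + b.val) false = true ∨
    x.getD (b.val * Nat.sqrt x.length + a.val) false = true)
  symm := ⟨fun _ _ h => ⟨h.1.symm, h.2.symm⟩⟩
  loopless := ⟨fun a h => h.1 rfl⟩

open Classical in
/-- the decision problem `RCR_k` -/
noncomputable def RCRk (k : ℕ) : N68a2faeb.DecisionProblem := fun x =>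
  decide (rcr (graphOf x) ≤ k)

/-- a combinatorial description of a drawing of `G` by a plane triangulation: the vertex `a` is
placed at `ι a`, the edge `a b` (`a < b`) is the path `ι a, P a b, ι b`, straight at every inner
vertex, and at most `k` pairs of non-adjacent edges have a common inner vertex -/
structure Wit {n : ℕ} (G : SimpleGraph (Fin n)) (F Ch : Finset Tri) (ι : Fin n → ℕ)
    (P : Fin n → Fin n → List ℕ) (k : ℕ) : Prop where
  inj : Function.Injective ι
  mem : ∀ a, ι a ∈ verts F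
  chain : ∀ a b, a < b → G.Adj a b → List.IsChain (Adj F) (ι a :: (P a b ++ [ι b]))
  trip : ∀ a b, a < b → G.Adj a b → ∀ x y z, [x, y, z] <:+: (ι a :: (P a b ++ [ι b])) →
    (x, y, z) ∈ Ch
  new : ∀ a b, a < b → G.Adj a b → ∀ c, ι c ∉ P a b
  cross : Set.ncard {q : (Fin n × Fin n) × (Fin n × Fin n) | q.1.1 < q.1.2 ∧ q.2.1 < q.2.2 ∧
    q.1.1 < q.2.1 ∧ q.1.2 ≠ q.2.1 ∧ q.1.2 ≠ q.2.2 ∧ G.Adj q.1.1 q.1.2 ∧ G.Adj q.2.1 q.2.2 ∧
    ∃ x, x ∈ P q.1.1 q.1.2 ∧ x ∈ P q.2.1 q.2.2} ≤ k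

end Pool.Agent.H3.RCR
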