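import Pool.Agent.H3.RCR.Stmts2

/-! # RCR, module K2: the kernel theorem -/

namespace Pool.Agent.H3.RCR

open Relation

theorem sub1_of_ne {u v x : ℕ} (h : x ≠ u) : sub1 u v x = x := by simp [sub1, h]

/-- instances are preserved by contractions of nonterminals -/
theorem instOk_step (h1 : A1Stmt) (h2 : A2Stmt) {F : Finset Tri} {o : Tri} {T : Finset ℕ}
    {Ch : Finset Tri} (hI : InstOk F o T Ch) {u v : ℕ} (hu : u ∉ T) (hok : Ok F u v) :
    InstOk (contr F u v) o T Ch := by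
  obtain ⟨-, hv, -, hadj, -, hk, -, -⟩ := h1 F u v hI.sph.toPre hok
  refine ⟨h2 F u v hI.sph hok, hk o hI.mem fun h => hu (hI.oT u h), hI.oT, ?_, ?_⟩
  · intro x hx
    rw [hv, Finset.mem_erase]
    exact ⟨fun e => hu (e ▸ hx), hI.sub hx⟩
  · intro t ht
    obtain ⟨ha, hb, hc, hd, he⟩ := hI.ch t ht
    have hne : ∀ x ∈ T, x ≠ u := fun x hx e => hu (e ▸ hx)
    refine ⟨ha, hb, hc, (hadj _ _).2 ⟨hI.sph.toPre.adj_ne hd, _, _, hd, sub1_of_ne (hne _ ha),
      sub1_of_ne (hne _ hb)⟩, (hadj _ _).2 ⟨hI.sph.toPre.adj_ne he, _, _, he,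
      sub1_of_ne (hne _ hb), sub1_of_ne (hne _ hc)⟩⟩

theorem instOk_red (h1 : A1Stmt) (h2 : A2Stmt) {F G : Finset Tri} {o : Tri} {T : Finset ℕ}
    {Ch : Finset Tri} (hI : InstOk F o T Ch) {V : Set ℕ} (hr : Red {x | x ∉ T} V F G) :
    InstOk G o T Ch := by
  induction hr with
  | refl => exact hI
  | tail _ hs ih =>
    obtain ⟨u, v, hu, -, hok, rfl⟩ := hs
    exact instOk_step h1 h2 ih hu hok

theorem k2 (h1 : A1Stmt) (h2 : A2Stmt) (h8 : G8Stmt) (hK1 : K1Stmt) (hR5 : R5Stmt)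
    (hS1 : S1Stmt) : K2Stmt := by
  intro k
  obtain ⟨R, hR⟩ := hR5 k (6 * k + 6)
  refine ⟨k * (6 * k + 6 + 1) ^ R, ?_⟩
  suffices H : ∀ (n : ℕ) (F : Finset Tri) (o : Tri) (T : Finset ℕ) (Ch : Finset Tri),
      (verts F).card = n → InstOk F o T Ch → T.card ≤ k → Rlz F o Ch →
      ∃ G, Red {x | x ∉ T} Set.univ F G ∧ Rlz G o Ch ∧
        (verts G).card ≤ k * (6 * k + 6 + 1) ^ R from
    fun F o T Ch hI hT hr => H _ F o T Ch rfl hI hT hr
  intro n
  induction n using Nat.strong_induction_on with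
  | _ n ih =>
    intro F o T Ch hn hI hT hr
    by_cases hc : (verts F).card ≤ k * (6 * k + 6 + 1) ^ R
    · exact ⟨F, ReflTransGen.refl, hr, hc⟩
    by_cases hd : ∃ v ∈ verts F, v ∉ T ∧ deg F v ≤ 5
    · obtain ⟨v, hv, hvT, hdeg⟩ := hd
      obtain ⟨p, hp, hch⟩ := hr
      obtain ⟨x, hok, hreal⟩ := h8 F o p v hI.sph hp hv (fun h => hvT (hI.oT v h)) hdeg
      have hI' := instOk_step h1 h2 hI hvT hok
      have hcard : (verts (contr F v x)).card < n := by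
        obtain ⟨-, hv', -⟩ := h1 F v x hI.sph.toPre hok
        rw [hv', ← hn]
        exact Finset.card_erase_lt_of_mem hv
      obtain ⟨G, hG, hG', hG''⟩ := ih _ hcard (contr F v x) o T Ch rfl hI' hT ⟨p, hreal, hch⟩
      exact ⟨G, ReflTransGen.head ⟨v, x, hvT, trivial, hok, rfl⟩ hG, hG', hG''⟩
    · push Not at hd
      have hdeg : ∀ v ∈ verts F, deg F v ≤ 6 * k + 6 := fun v hv =>
        (hK1 F T hI.sph hI.sub (fun w hw hwT => hd w hw hwT) v hv).trans (by omega)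
      have hb := hS1 F T (6 * k + 6) R hI.sph.toPre hI.sub hdeg
      have hb' : (ball F T R).card < (verts F).card := by
        refine hb.trans_lt ?_
        refine lt_of_le_of_lt ?_ (not_le.1 hc)
        exact Nat.mul_le_mul_right _ hT
      obtain ⟨v0, hv0, hv0'⟩ := Finset.exists_mem_notMem_of_card_lt_card hb'
      obtain ⟨G, hG, hlt, hrl⟩ := hR F o T Ch v0 hI hT hdeg hr hv0 hv0'
      have hI' := instOk_red h1 h2 hI hG
      obtain ⟨G', hG1, hG2, hG3⟩ := ih _ (hn ▸ hlt) G o T Ch rfl hI' hT hrl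
      exact ⟨G', hG.trans hG1, hG2, hG3⟩

end Pool.Agent.H3.RCR
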