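import Pool.Agent.H3.RCR.R12

/-! # RCR, module R5: reduction of an instance with a vertex far from its terminals -/

namespace Pool.Agent.H3.RCR

open Relation

theorem subset_ball (F : Finset Tri) (T : Finset ℕ) (n : ℕ) : T ⊆ ball F T n := by
  induction n with
  | zero => exact subset_rfl
  | succ n ih => exact ih.trans Finset.subset_union_left

theorem good_cap (h0 : A0Stmt) (h11 : A11Stmt) (h17 : A17Stmt) (hR3 : R3Stmt)
    {F G1 S : Finset Tri} {x y z : ℕ} {g g' : GD} (hF : Sph F)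
    (hr1 : Red {u | IntV F g.D g.K u} {u | u ∈ verts g.K} F G1) (hS : Side3 G1 x y z S)
    (hvS : ∀ v ∈ verts S, v ∈ verts g.K) (hg' : g'.Good F)
    (hdis : Disjoint (verts g.K) (verts g'.K)) : g'.Good ((G1 \ S) ∪ rots (x, y, z)) := by
  obtain ⟨hG1, hkeep, hsubV, hstay, hadj⟩ := h17 _ _ _ _ hF hr1
  obtain ⟨-, -, -, -, hxS, hyS, hzS, -⟩ := (h0.2 G1 x y z hG1).2 S hS
  have hX := sph_cap h17 h11 hG1 hS
  have hrotv : ∀ v, isV v (x, y, z) → v ∈ verts S := by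
    rintro v (rfl | rfl | rfl)
    · exact hxS
    · exact hyS
    · exact hzS
  have hdisj : ∀ v ∈ verts g'.K, v ∉ verts g.K := fun v hv hv' =>
    Finset.disjoint_left.1 hdis hv' hv
  refine ⟨hg'.1, hR3 F _ _ _ _ _ _ _ _ hF hX hg'.2 ?_ ?_⟩
  · intro t ht
    have htv : ∀ v, isV v t → v ∈ verts g'.K := fun v hv => isV_mem_verts hg'.rotK ht hv
    refine Finset.mem_union_left _ (Finset.mem_sdiff.2 ⟨hkeep t (hg'.subK ht) ?_, ?_⟩)
    · exact fun v hv hv' => hdisj v (htv v hv) hv'.1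
    · exact fun h => hdisj _ (htv _ (isV_fst t)) (hvS _ (isV_mem_verts hS.rot h (isV_fst t)))
  · rintro a ha b hb ⟨c, hc⟩
    rcases Finset.mem_union.1 hc with hc | hc
    · refine (hadj a b ?_ ?_ ?_ ?_).1 ⟨c, (Finset.mem_sdiff.1 hc).1⟩
      · exact fun h => hdisj a ha h.1
      · exact fun h => hdisj a ha h
      · exact fun h => hdisj b hb h.1
      · exact fun h => hdisj b hb h
    · exact absurd (hvS _ (hrotv _ (isV_of_mem_rots hc (Or.inl rfl)))) (hdisj a ha)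

theorem persist_D (h17 : A17Stmt) {X X' F' S : Finset Tri} {x y z : ℕ} {g' : GD} {U V : Set ℕ}
    (hX : Sph X) (hgg : g'.Good X) (hr2 : Red U V X X') (hU : ∀ v ∈ verts g'.D, v ∉ U)
    (hX' : X' = (F' \ S) ∪ rots (x, y, z)) (hrot : ∀ v, isV v (x, y, z) → v ∉ verts g'.D) :
    ∀ v ∈ verts g'.D, v ∈ verts (F' \ S) := by
  intro v hv
  obtain ⟨a, c, hac⟩ := mem_verts.1 hv
  have hX1 : (v, a, c) ∈ X := hgg.subK (hgg.2.sub hac)
  have hX2 : (v, a, c) ∈ X' := (h17 _ _ _ _ hX hr2).2.1 _ hX1 fun w hw =>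
    hU w (isV_mem_verts hgg.rotD hac hw)
  rw [hX'] at hX2
  rcases Finset.mem_union.1 hX2 with h | h
  · exact mem_verts.2 ⟨a, c, h⟩
  · exact absurd hv (hrot _ (isV_of_mem_rots h (Or.inl rfl)))

theorem r5 (h0 : A0Stmt) (h11 : A11Stmt) (h16 : A16Stmt) (h17 : A17Stmt) (h14 : G14Stmt)
    (hR2 : R2Stmt) (hR3 : R3Stmt) (hR4 : R4Stmt) (hS4 : S4Stmt) : R5Stmt := by
  intro k Δ
  obtain ⟨R, hR⟩ := hS4 k Δ
  refine ⟨R, fun F o T Ch v0 hI hT hdeg hrl hv0 hfar => ?_⟩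
  obtain ⟨p, hp, hch⟩ := hrl
  have hF := hI.sph
  obtain ⟨L, hgood, hpw, hcov, hv0K⟩ := hR F T v0 hF hI.sub ⟨_, hI.oT _ (isV_fst o)⟩ hT hdeg hv0
    hfar
  obtain ⟨g0, hg0, hg0o⟩ := hcov o.1 (hI.oT _ (isV_fst o))
  have hoD : o ∈ g0.D := hg0o _ _ hI.mem
  obtain ⟨s, t, rfl⟩ := List.append_of_mem hg0
  have hsymm : Std.Symm (fun g h : GD => Disjoint (verts g.K) (verts h.K)) :=
    ⟨fun _ _ h => Disjoint.symm h⟩
  have hpw' : (g0 :: (s ++ t)).Pairwise (fun g h => Disjoint (verts g.K) (verts h.K)) :=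
    (List.Perm.pairwise_iff (fun h => Disjoint.symm h) List.perm_middle).1 hpw
  rw [List.pairwise_cons] at hpw'
  obtain ⟨hdis0, hpwL⟩ := hpw'
  have hmem : ∀ g ∈ s ++ t, g ∈ s ++ g0 :: t := by
    intro g hg
    rcases List.mem_append.1 hg with h | h
    · exact List.mem_append_left _ h
    · exact List.mem_append_right _ (List.mem_cons_of_mem _ h)
  have hmem' : ∀ g ∈ s ++ g0 :: t, g = g0 ∨ g ∈ s ++ t := by
    intro g hg
    rcases List.mem_append.1 hg with h | h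
    · exact Or.inr (List.mem_append_left _ h)
    · rcases List.mem_cons.1 h with h | h
      · exact Or.inl h
      · exact Or.inr (List.mem_append_right _ h)
  have hgg0 := hgood g0 hg0
  obtain ⟨G1, S, x, y, z, q0, hr1, hS, hDS, hvS, hq0, hq0p⟩ :=
    hR2 F o p F g0 hF hp hgg0.2.sideD hgg0.2.cyc hoD hF hgg0
  have hvS' : ∀ v ∈ verts S, v ∈ verts g0.K := by
    intro v hv
    rcases hvS v hv with h | h
    · exact hgg0.vertsDK h
    · exact h.1
  obtain ⟨hG1, hkeep, hsubV, hstay, hadj⟩ := h17 _ _ _ _ hF hr1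
  obtain ⟨-, hScomp, -, -, hxS, hyS, hzS, -⟩ := (h0.2 G1 x y z hG1).2 S hS
  have hX := sph_cap h17 h11 hG1 hS
  have hrotv : ∀ v, isV v (x, y, z) → v ∈ verts S := by
    rintro v (rfl | rfl | rfl)
    · exact hxS
    · exact hyS
    · exact hzS
  have hv0g0 : v0 ∉ verts g0.K := hv0K g0 hg0
  have hv0G1 : v0 ∈ verts G1 := hstay v0 hv0 fun h => hv0g0 h.1
  have hv0S : v0 ∉ verts S := fun h => hv0g0 (hvS' _ h)
  have hv0X : v0 ∈ verts ((G1 \ S) ∪ rots (x, y, z)) := by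
    obtain ⟨a, c, hac⟩ := mem_verts.1 hv0G1
    refine mem_verts.2 ⟨a, c, Finset.mem_union_left _ (Finset.mem_sdiff.2 ⟨hac, fun h => ?_⟩)⟩
    exact hv0S (mem_verts.2 ⟨a, c, h⟩)
  have hdisj : ∀ g' ∈ s ++ t, ∀ v ∈ verts g'.K, v ∉ verts g0.K := fun g' hg' v hv hv' =>
    Finset.disjoint_left.1 (hdis0 g' hg') hv' hv
  have hgoodX : ∀ g' ∈ s ++ t, g'.Good ((G1 \ S) ∪ rots (x, y, z)) := fun g' hg' =>
    good_cap h0 h11 h17 hR3 hF hr1 hS hvS' (hgood g' (hmem g' hg')) (hdis0 g' hg')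
  obtain ⟨X', q2, hr2, hq2, hlt, hbtw⟩ := hR4 F o p hF hp (s ++ t)
    ((G1 \ S) ∪ rots (x, y, z)) (x, y, z) v0 hX (Finset.mem_union_right _ (by simp [rots])) hv0X
    (fun h => hv0S (hrotv _ h))
    (fun g' hg' => ⟨hgoodX g' hg', (hgood g' (hmem g' hg')).2.sideD,
      (hgood g' (hmem g' hg')).2.cyc,
      fun v hv h => hdisj g' hg' v ((hgood g' (hmem g' hg')).vertsDK h)
        (hgg0.vertsDK (isV_mem_verts hgg0.rotD hoD hv)),
      fun v hv h => hdisj g' hg' v h (hvS' v (hrotv v hv)), hv0K g' (hmem g' hg')⟩) hpwL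
  have hUS : ∀ v ∈ verts S, v ∉ ({x | x = v0 ∨ ∃ g ∈ s ++ t, x ∈ verts g.K ∧ x ∉ verts g.D} :
      Set ℕ) := by
    rintro v hv (rfl | ⟨g', hg', hv', -⟩)
    · exact hv0S hv
    · exact hdisj g' hg' v hv' (hvS' v hv)
  obtain ⟨F', hr3, hS', hX', hcard⟩ := h16 G1 S x y z _ _ X' hG1 hS hUS hr2
  have hF' := (h17 _ _ _ _ hG1 hr3).1
  obtain ⟨-, hS'c, -⟩ := (h0.2 F' x y z hF').2 S hS'
  have hoS : o ∈ S := hDS hoD
  have e1 : F' \ (F' \ S) = S := Finset.sdiff_sdiff_eq_self hS'.sub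
  obtain ⟨q, hq, hqS, hqX⟩ := h14 F' (F' \ S) x z y o q0 q2 hF' hS'c (hS'.sub hoS)
    (fun h => (Finset.mem_sdiff.1 h).2 hoS) (by rw [e1]; exact hq0) (by rw [← hX']; exact hq2)
  rw [e1] at hqS
  have hTint : ∀ g ∈ s ++ g0 :: t, ∀ v ∈ T, v ∈ verts g.K → v ∈ verts g.D := by
    intro g hg v hv hvK
    obtain ⟨g', hg', hv'⟩ := hcov v hv
    obtain ⟨a, c, hac⟩ := mem_verts.1 (hI.sub hv)
    have hvD : v ∈ verts g'.D := mem_verts.2 ⟨a, c, hv' _ _ hac⟩
    by_cases e : g' = g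
    · exact e ▸ hvD
    · exact absurd ((hgood g' hg').vertsDK hvD)
        (Finset.disjoint_right.1 (hpw.forall hg' hg e) hvK)
  have hv0T : v0 ∉ T := fun h => hfar (subset_ball F T R h)
  refine ⟨F', ?_, ?_, q, hq, ?_⟩
  · refine ReflTransGen.trans (Red.mono ?_ (Set.subset_univ _) hr1)
      (Red.mono ?_ (Set.subset_univ _) hr3)
    · exact fun v hv hvT => hv.2.1 (hTint g0 hg0 v hvT hv.1)
    · rintro v (rfl | ⟨g', hg', hv, hv'⟩)
      · exact hv0T
      · exact fun hvT => hv' (hTint g' (hmem g' hg') v hvT hv)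
  · have h5 : (verts G1).card ≤ (verts F).card := Finset.card_le_card hsubV
    omega
  · intro c hc
    obtain ⟨hc1, hc2, hc3, ha1, ha2⟩ := hI.ch c hc
    obtain ⟨g, hg, hint⟩ := hcov c.2.1 hc2
    have hgg := hgood g hg
    have hcv : ∀ v, isV v c → v ∈ verts g.D := by
      obtain ⟨w1, hw1⟩ := hF.toPre.adj_symm ha1
      obtain ⟨w2, hw2⟩ := ha2
      rintro v (rfl | rfl | rfl)
      · exact isV_mem_verts hgg.rotD (hint _ _ hw1) (Or.inr (Or.inl rfl))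
      · exact isV_mem_verts hgg.rotD (hint _ _ hw1) (Or.inl rfl)
      · exact isV_mem_verts hgg.rotD (hint _ _ hw2) (Or.inr (Or.inl rfl))
    rcases hmem' g hg with rfl | hg'
    · refine btw_congr (fun v hv => ?_) (hch c hc)
      rw [hqS v (verts_mono hDS (hcv v hv)), hq0p v (hcv v hv)]
    · refine hqX c (fun v hv => ?_) (hbtw g hg' c hcv (hch c hc))
      refine persist_D h17 hX (hgoodX g hg') hr2 ?_ hX' ?_ v (hcv v hv)
      · rintro w hw (rfl | ⟨g'', hg'', hw', hw''⟩)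
        · exact hv0K g hg (hgg.vertsDK hw)
        · have hne : g'' ≠ g := by
            rintro rfl
            exact hw'' hw
          have hd := hpwL.forall hg'' hg' hne
          exact Finset.disjoint_left.1 hd hw' (hgg.vertsDK hw)
      · exact fun w hw h => hdisj g hg' w (hgg.vertsDK h) (hvS' w (hrotv w hw))

end Pool.Agent.H3.RCR
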