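import Pool.Agent.H3.RCR.Stmts2

/-! # RCR: small utilities for the assembly modules -/

namespace Pool.Agent.H3.RCR

open Relation

theorem Red.mono {U V U' V' : Set ℕ} (hU : U ⊆ U') (hV : V ⊆ V') {F G : Finset Tri}
    (h : Red U V F G) : Red U' V' F G := by
  induction h with
  | refl => exact ReflTransGen.refl
  | tail _ hs ih =>
    obtain ⟨u, v, hu, hv, hok, e⟩ := hs
    exact ReflTransGen.tail ih ⟨u, v, hU hu, hV hv, hok, e⟩

theorem verts_mono {S T : Finset Tri} (h : S ⊆ T) : verts S ⊆ verts T :=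
  Finset.image_subset_image h

theorem isV_mem_verts {S : Finset Tri} (hS : RotC S) {t : Tri} (ht : t ∈ S) {x : ℕ}
    (hx : isV x t) : x ∈ verts S := by
  obtain ⟨a, b, c⟩ := t
  have h1 := hS _ _ _ ht
  have h2 := hS _ _ _ h1
  rcases hx with rfl | rfl | rfl
  · exact mem_verts.2 ⟨_, _, ht⟩
  · exact mem_verts.2 ⟨_, _, h1⟩
  · exact mem_verts.2 ⟨_, _, h2⟩

theorem isV_of_mem_rots {s t : Tri} (h : s ∈ rots t) {x : ℕ} (hx : isV x s) : isV x t := by
  obtain ⟨a, b, c⟩ := t
  rcases mem_rots.1 h with rfl | rfl | rfl <;> rcases hx with rfl | rfl | rfl <;> simp [isV]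

theorem isV_fst (t : Tri) : isV t.1 t := Or.inl rfl

theorem btw_congr {p q : ℕ → Pt} {t : Tri} (h : ∀ x, isV x t → q x = p x) (hb : Btw p t) :
    Btw q t := by
  have h1 := h t.1 (Or.inl rfl)
  have h2 := h t.2.1 (Or.inr (Or.inl rfl))
  have h3 := h t.2.2 (Or.inr (Or.inr rfl))
  unfold Btw
  rw [h1, h2, h3]
  exact hb

theorem rots_rotC (t : Tri) : RotC (rots t) := by
  intro a b c h
  rcases mem_rots.1 h with h | h | h
  all_goals
    injection h with h1 h2
    injection h2 with h2 h3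
    subst h1; subst h2; subst h3
    simp [rots]

theorem rotC_union {S T : Finset Tri} (hS : RotC S) (hT : RotC T) : RotC (S ∪ T) := by
  intro a b c h
  rcases Finset.mem_union.1 h with h | h
  · exact Finset.mem_union_left _ (hS _ _ _ h)
  · exact Finset.mem_union_right _ (hT _ _ _ h)

theorem rotC_sdiff {F S : Finset Tri} (hF : RotC F) (hS : RotC S) : RotC (F \ S) := by
  intro a b c h
  rw [Finset.mem_sdiff] at h ⊢
  refine ⟨hF _ _ _ h.1, fun h' => h.2 ?_⟩
  exact hS _ _ _ (hS _ _ _ h')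

theorem rotC_rots_subset {S : Finset Tri} (hS : RotC S) {t : Tri} (ht : t ∈ S) : rots t ⊆ S := by
  intro s hs
  obtain ⟨a, b, c⟩ := t
  rcases mem_rots.1 hs with rfl | rfl | rfl
  · exact ht
  · exact hS _ _ _ ht
  · exact hS _ _ _ (hS _ _ _ ht)

theorem mem_of_mem_rots {S : Finset Tri} (hS : RotC S) {s t : Tri} (h : s ∈ rots t) (hs : s ∈ S) :
    t ∈ S := by
  obtain ⟨a, b, c⟩ := t
  rcases mem_rots.1 h with rfl | rfl | rfl
  · exact hs
  · exact hS _ _ _ (hS _ _ _ hs)
  · exact hS _ _ _ hs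

namespace GD.Good

variable {g : GD} {F : Finset Tri} (h : g.Good F)
include h

theorem rotD : RotC g.D := h.2.sideD.rot

theorem rotK : RotC g.K := by
  obtain ⟨z, Z, -, hZ, -⟩ := h.2.sideK
  exact hZ.rot

theorem subK : g.K ⊆ F := by
  obtain ⟨z, Z, -, hZ, -⟩ := h.2.sideK
  exact hZ.sub

theorem vertsDK : verts g.D ⊆ verts g.K := verts_mono h.2.sub

end GD.Good

end Pool.Agent.H3.RCR
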