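import Pool.Agent.H3.RCR.K2
import Pool.Agent.H3.RCR.R5
import Pool.Agent.H67.RCR.A1
import Pool.Agent.H67.RCR.A2
import Pool.Agent.H67.RCR.A3
import Pool.Agent.H67.RCR.G7
import Pool.Agent.H67.RCR.G17
import Pool.Agent.H59.RCR.A4
import Pool.Agent.H59.RCR.A5
import Pool.Agent.H59.RCR.A8
import Pool.Agent.H21.RCR.A0
import Pool.Agent.H21.RCR.A6
import Pool.Agent.H21.RCR.A7
import Pool.Agent.H21.RCR.A9
import Pool.Agent.H21.RCR.G5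
import Pool.Agent.H22.RCR.A10
import Pool.Agent.H22.RCR.A11
import Pool.Agent.H22.RCR.A14
import Pool.Agent.H22.RCR.A15
import Pool.Agent.H22.RCR.A17
import Pool.Agent.H65.RCR.A13
import Pool.Agent.H65.RCR.A20
import Pool.Agent.H65.RCR.A21
import Pool.Agent.H65.RCR.P6
import Pool.Agent.H65.RCR.P8
import Pool.Agent.H65.RCR.R3
import Pool.Agent.H24.RCR.A16
import Pool.Agent.H24.RCR.A19
import Pool.Agent.H24.RCR.G14
import Pool.Agent.H4.RCR.C2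
import Pool.Agent.H4.RCR.C3
import Pool.Agent.H60.RCR.D1
import Pool.Agent.H60.RCR.D2
import Pool.Agent.H98.RCR.G1
import Pool.Agent.H98.RCR.G2
import Pool.Agent.H98.RCR.G3
import Pool.Agent.H34.RCR.K1
import Pool.Agent.H34.RCR.S2
import Pool.Agent.H39.RCR.P0
import Pool.Agent.H39.RCR.P1
import Pool.Agent.H72.RCR.P10
import Pool.Agent.H72.RCR.S4
import Pool.Agent.H77.RCR.SC1
import Pool.Agent.H77.RCR.SC2
import Pool.Agent.H77.RCR.SC4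
import Pool.Agent.H79.RCR.V1
import Pool.Agent.H79.RCR.V2
import Pool.Agent.H47.RCR.W1
import Pool.Agent.H47.RCR.W2
import Pool.Agent.H47.RCR.W3
import Pool.Agent.H47.RCR.W4
import Pool.Agent.H47.RCR.W5
import Pool.Agent.H4.RCR.C1
import Pool.Agent.H64.Rcr.G13
import Pool.Agent.H59.RCR.G15
import Pool.Agent.H59.RCR.G8
import Pool.Agent.H21.RCR.G6
import Pool.Agent.H21.RCR.P11
import Pool.Agent.H39.RCR.P2
import Pool.Agent.H39.RCR.P3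
import Pool.Agent.H77.RCR.SC3
import Pool.Agent.H77.RCR.SC5
import Pool.Agent.H77.RCR.SC6
import Pool.Agent.H60.RCR.D3
import Pool.Agent.H43.RCR.P7
import Pool.Agent.H43.RCR.P9
import Pool.Agent.H21.RCR.P4
import Pool.Agent.H21.RCR.P5
import Pool.Agent.H4.RCR.N1
import Pool.Agent.H4.RCR.N2

/-! # Project RCR: assembly -/

namespace Pool.Agent.H3.RCR

open H21.RCR H98.RCR H34.RCR

theorem tA4 : A4Stmt := A4.a4
theorem tA5 : A5Stmt := A5.a5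
theorem tA6 : A6Stmt := a6 tA5
theorem tA7 : A7Stmt := a7 tA4
theorem tA0 : A0Stmt := a0 tA6 tA7
theorem tA8 : A8Stmt := A8.a8 tA6 tA7
theorem tA9 : A9Stmt := a9 tA0
theorem tA21 : A21Stmt := A21.a21
theorem tA10 : A10Stmt := A10.a10 tA0 tA9 tA21
theorem tA12 : A12Stmt := A10.a12 tA0 tA9 tA21
theorem tA11 : A11Stmt := A11.a11 a1 a2 tA0 tA10
theorem tA13 : A13Stmt := A13.a13
theorem tG7 : G7Stmt := g7 g3
theorem tA14 : A14Stmt := A14.a14 a1 a2 tA0 tA9 tA13 tA21 tG7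
theorem tA15 : A15Stmt := A15.a15 a1 a2 tA12 tA21 tG7
theorem tA16 : A16Stmt := a16 tA0 a1 a2 tA11
theorem tA17 : A17Stmt := A17.a17 a1 a2
theorem tA19 : A19Stmt := a19 tA4 tA6
theorem tA20 : A20Stmt := A20.a20
theorem tG14 : G14Stmt := g14 tA0
theorem tG17 : G17Stmt := g17 tA20 tA0
theorem tP0 : P0Stmt := p0 tA7
theorem tP1 : P1Stmt := p1 tA6 tA7 tA0 tA20 tP0

theorem tG6 : G6Stmt := g6 g2
theorem tG8 : G8Stmt := G8.g8 g4
theorem tG13 : G13Stmt := H64.Rcr.g13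
theorem tG15 : G15Stmt := G15.g15 tA7 g4 tG6 tG13
theorem tG16 : G16Stmt := G15.g16 tA7 g4 tG6 tG13
theorem tC1 : C1Stmt := c1_proof a1 a2 tA21
theorem tP2 : P2Stmt := p2 a1 tP0
theorem tP3 : P3Stmt := p3 tA0 tA11 tA17 tP0
theorem tSC3 : SC3Stmt := SC.sc3 tA6 tA20
theorem tSC5 : SC5Stmt := SC.sc5 SC.sc2 tSC3
theorem tSC6 : SC6Stmt := SC.sc6 SC.sc2 tSC3 SC.sc4 tA7
theorem tW5 : W5Stmt := w5 (w4 tA7 tA19) tA6 tA8

theorem tP4 : P4Stmt := P4.p4 tP0 tA7 tA19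
theorem tP5 : P5Stmt := P5.p5 tA0 a1 tA7 tA11 tA17 tA21 tP0 tP1 tP2 tP3 tP4
theorem tP7 : P7Stmt := H43.RCR.p7 tP0 P6.p6 tA7 tA8 tA20
theorem tP8 : P8Stmt := P8.p8 tP7
theorem tP9 : P9Stmt := H43.RCR.p9 tP0 P6.p6 tA7 tP8 tA20
theorem tP10 : P10Stmt := P10.p10 tP0 P6.p6 tP9
theorem tP11 : P11Stmt := p11 tA17 tP5 tP10
theorem tN1 : N1Stmt := n1_proof tA7
theorem tR1 : R1Stmt := r1 tA0 tA11 tA14 tA17 tW5 tP11 c3_proof tC1 c2 tN1 n2_proof tG15 tG17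
theorem tR2 : R2Stmt := r2 tA0 tA11 tA14 tA17 tW5 tP11 c3_proof tC1 c2 tN1 n2_proof tG16 tG17
theorem tR4 : R4Stmt := r4 tA0 a1 a2 tA11 tA12 tA15 tA16 tA17 tG14 tR1 R3.r3
theorem tS4 : S4Stmt := S4.s4 s1 s2 s3 (SC.sc1 tA4) tSC5 tSC6
theorem tR5 : R5Stmt := r5 tA0 tA11 tA16 tA17 tG14 tR2 R3.r3 tR4 tS4
theorem tK2 : K2Stmt := k2 a1 a2 tG8 k1 tR5 s1
theorem tD3 : D3Stmt := d3 tG13

/-- `RCR_k` is in NP for every `k` -/
theorem main : V2Stmt := v2 tK2 a1 a2 a3 tG7 d1 (d2 tG6) tD3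

end Pool.Agent.H3.RCR
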