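import Pool.Agent.H3.RCR.R4

/-! # RCR, modules R1 and R2: groups -/

namespace Pool.Agent.H3.RCR

open Relation

/-- the jumps of a single face -/
theorem jump_rots {Y : Finset Tri} (hY : Sph Y) {a b c : ℕ} (hO : (a, b, c) ∈ Y) (x y : ℕ) :
    Jump Y (rots (a, b, c)) x y ↔ (x = a ∧ y = b) ∨ (x = b ∧ y = c) ∨ (x = c ∧ y = a) := by
  obtain ⟨hab, hbc, hca⟩ := hY.toPre.nd hO
  constructor
  · rintro ⟨⟨z, hz⟩, -⟩
    rcases mem_rots.1 hz with h | h | h
    · injection h with h1 h2; injection h2 with h2 h3; exact Or.inl ⟨h1, h2⟩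
    · injection h with h1 h2; injection h2 with h2 h3; exact Or.inr (Or.inl ⟨h1, h2⟩)
    · injection h with h1 h2; injection h2 with h2 h3; exact Or.inr (Or.inr ⟨h1, h2⟩)
  · intro h
    have key : ∀ x y z, (x, y, z) ∈ rots (a, b, c) → (x, y, z) ∈ Y →
        Jump Y (rots (a, b, c)) x y := by
      intro x y z hr hm
      refine ⟨⟨z, hr⟩, ?_⟩
      obtain ⟨d, hd⟩ := hY.opp _ _ _ hm
      refine ⟨d, hd, fun h' => ?_⟩
      rcases mem_rots.1 hr with h | h | h <;> rcases mem_rots.1 h' with h' | h' | h'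
      all_goals
        injection h with h1 h2
        injection h2 with h2 h3
        injection h' with h1' h2'
        injection h2' with h2' h3'
        subst h1; subst h2; subst h3
        first
          | exact absurd h1' hab
          | exact absurd h1' hab.symm
          | exact absurd h1' hbc
          | exact absurd h1' hbc.symm
          | exact absurd h1' hca
          | exact absurd h1' hca.symm
          | exact absurd h2' hab
          | exact absurd h2' hab.symm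
          | exact absurd h2' hbc
          | exact absurd h2' hbc.symm
          | exact absurd h2' hca
          | exact absurd h2' hca.symm
    rcases h with ⟨rfl, rfl⟩ | ⟨rfl, rfl⟩ | ⟨rfl, rfl⟩
    · exact key _ _ c (by simp [rots]) hO
    · exact key _ _ a (by simp [rots]) (hY.rot _ _ _ hO)
    · exact key _ _ b (by simp [rots]) (hY.toPre.rot2 hO)

/-- a parametrisation of the boundary of a face has exactly three steps -/
theorem par_card {Y : Finset Tri} (hY : Sph Y) {b : ℕ} [NeZero b] {w : ZMod b → ℕ} {O : Tri}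
    (hO : O ∈ Y) (hw : Par Y w (rots O)) :
    (Finset.univ.filter (fun i => w i ≠ w (i + 1))).card = 3 := by
  obtain ⟨a, bb, c⟩ := O
  obtain ⟨hab, hbc, hca⟩ := hY.toPre.nd hO
  obtain ⟨i1, h1, h1'⟩ := hw.all a bb ((jump_rots hY hO _ _).2 (Or.inl ⟨rfl, rfl⟩))
  obtain ⟨i2, h2, h2'⟩ := hw.all bb c ((jump_rots hY hO _ _).2 (Or.inr (Or.inl ⟨rfl, rfl⟩)))
  obtain ⟨i3, h3, h3'⟩ := hw.all c a ((jump_rots hY hO _ _).2 (Or.inr (Or.inr ⟨rfl, rfl⟩)))
  have n12 : i1 ≠ i2 := by rintro rfl; exact hab (h1.trans h2.symm)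
  have n23 : i2 ≠ i3 := by rintro rfl; exact hbc (h2.trans h3.symm)
  have n31 : i3 ≠ i1 := by rintro rfl; exact hca (h3.trans h1.symm)
  have : Finset.univ.filter (fun i => w i ≠ w (i + 1)) = {i1, i2, i3} := by
    ext i
    simp only [Finset.mem_filter, Finset.mem_univ, true_and, Finset.mem_insert,
      Finset.mem_singleton]
    constructor
    · intro hi
      rcases hw.step i with h | h
      · exact absurd h hi
      · rcases (jump_rots hY hO _ _).1 h with ⟨e1, e2⟩ | ⟨e1, e2⟩ | ⟨e1, e2⟩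
        · exact Or.inl (hw.uniq i i1 hi (by rw [e1, h1]) (by rw [e2, h1']))
        · exact Or.inr (Or.inl (hw.uniq i i2 hi (by rw [e1, h2]) (by rw [e2, h2'])))
        · exact Or.inr (Or.inr (hw.uniq i i3 hi (by rw [e1, h3]) (by rw [e2, h3'])))
    · rintro (rfl | rfl | rfl)
      · rw [← h1, ← h1']; exact hab
      · rw [← h2, ← h2']; exact hbc
      · rw [← h3, ← h3']; exact hca
  rw [this, Finset.card_insert_of_notMem, Finset.card_insert_of_notMem, Finset.card_singleton]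
  · simpa using n23
  · simpa using ⟨n12, n31.symm⟩

/-- the common part of R1 and R2 -/
theorem near_red (h0 : A0Stmt) (h11 : A11Stmt) (h17 : A17Stmt) (hW5 : W5Stmt) (hP11 : P11Stmt)
    (hC3 : C3Stmt) (hC1 : C1Stmt) (hC2 : C2Stmt) (hN1 : N1Stmt) (hN2 : N2Stmt)
    {F Y : Finset Tri} {g : GD} {O : Tri} (hF : Sph F) (hg : g.Good F) (hb : 4 ≤ g.b)
    (hY : Sph Y) (hDY : g.D ⊆ Y) (hsY : Side Y (fun i => g.C (-i)) g.D) (hO : O ∈ Y)
    (hOD : O ∉ g.D) (hv : ∀ v ∈ verts (Y \ g.D), (∃ i, v = g.C i) ∨ isV v O) :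
    ∃ (G S : Finset Tri) (x y z : ℕ) (f : ℕ → ℕ),
      Red {u | IntV F g.D g.K u} {u | u ∈ verts g.K} F G ∧ Side3 G x z y S ∧ g.D ⊆ S ∧
      (∀ v ∈ verts S, v ∈ verts g.D ∨ IntV F g.D g.K v) ∧ Sph (S ∪ rots (x, y, z)) ∧
      Dom f (S ∪ rots (x, y, z)) Y ∧ mapT f (x, y, z) = O ∧ ∀ v ∈ verts g.D, f v = v := by
  obtain ⟨b, C, D, K, θ, d⟩ := g
  obtain ⟨-, hA⟩ := hg
  simp only at hA hb hDY hsY hOD hv ⊢
  have : NeZero b := ⟨by omega⟩
  have hcY : Cyc Y C := by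
    refine ⟨hA.cyc.three, hA.cyc.inj, fun i => ?_⟩
    have h := (hsY.jump (C (i + 1)) (C i)).2 ⟨-(i + 1), by simp, by simp⟩
    obtain ⟨⟨z, hz⟩, -⟩ := h
    exact hY.toPre.adj_symm ⟨z, hDY hz⟩
  obtain ⟨w, X, hS⟩ := hW5 Y D b C O hY hb hcY hsY hO hOD hv
  obtain ⟨G1, lam, hr1, hl0, hR, hint⟩ := hP11 F D K b (Nb b) C θ d hF hb (by unfold Nb; omega) hA
  have hG1 := (h17 _ _ _ _ hF hr1).1
  have hL1 : 1 ≤ Lb b := by unfold Lb; nlinarith
  have hM : Nb b - 1 = Lb b + 1 := by unfold Nb; omega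
  rw [hM] at hR hint
  obtain ⟨hcyc, hch, hnb, hfc⟩ := hC3 G1 D b (Lb b + 1) (Lb b) lam hG1 hb hR hL1 (by omega)
  obtain ⟨g0, hoff, hE, hnE, hinj, hadj, hr2⟩ := hC1 G1 b (lam (Lb b))
    (Finset.univ.filter (fun i => w (Lb b) i ≠ w (Lb b) (i + 1))) hG1 hcyc hch hnb hfc
    (par_card hY hO hS.last)
  have hr2' : Red {u | IntV F D K u} {u | u ∈ verts K} G1 (quo g0 G1) := by
    refine Red.mono ?_ ?_ hr2
    · rintro _ ⟨i, rfl⟩; exact hint _ hL1 (by omega) i
    · rintro _ ⟨i, rfl⟩; exact (hint _ hL1 (by omega) i).1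
  have hQ := (h17 _ _ _ _ hG1 hr2).1
  have hnd : NearD G1 D Y b (Lb b + 1) (Lb b) lam O w X g0 := by
    refine ⟨hG1, hY, hb, hL1, by omega, hR, hDY, hl0 ▸ hsY, hO, hOD, hl0 ▸ hS, hoff, ?_, ?_,
      hinj, hadj, hQ⟩
    · intro i hi
      exact hE i (by simpa using hi)
    · intro i hi
      exact hnE i (by simpa using hi)
  obtain ⟨i1, i2, i3, hOw, hi1, hi2, hi3, hside, hDq⟩ := hN1 _ _ _ _ _ _ _ _ _ _ _ hnd
  obtain ⟨f, hfD, hfl, hdom⟩ := hN2 _ _ _ _ _ _ _ _ _ _ _ hnd i1 i2 i3 hOw hi1 hi2 hi3 hside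
  refine ⟨quo g0 G1, quo g0 (Reg G1 D lam (Lb b)), lam (Lb b) i1, lam (Lb b) i2, lam (Lb b) i3, f,
    hr1.trans hr2', hside, hDq, ?_, ?_, hdom, ?_, hfD⟩
  · -- vertices
    have hregv := (((hC2 G1 D b (Lb b + 1) lam hG1 hb hR).1 (Lb b) (by omega)).2.2)
    have hring : ∀ i, ∃ i', g0 (lam (Lb b) i) = lam (Lb b) i' := by
      have hcard := par_card hY hO hS.last
      have hne : (Finset.univ.filter (fun i => w (Lb b) i ≠ w (Lb b) (i + 1))).Nonempty := by
        rw [← Finset.card_pos, hcard]; norm_num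
      obtain ⟨e, he⟩ := hne
      have key : ∀ n : ℕ, ∀ i, i + (n : ZMod b) = e → ∃ i', g0 (lam (Lb b) i) = lam (Lb b) i' := by
        intro n
        induction n with
        | zero =>
          intro i hi
          have : i = e := by simpa using hi
          subst this
          exact ⟨i, hE i he⟩
        | succ n ih =>
          intro i hi
          by_cases hi' : i ∈ Finset.univ.filter (fun i => w (Lb b) i ≠ w (Lb b) (i + 1))
          · exact ⟨i, hE i hi'⟩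
          · rw [hnE i hi']
            refine ih (i + 1) ?_
            rw [← hi]; push_cast; ring
      intro i
      refine key (e - i).val i ?_
      rw [ZMod.natCast_zmod_val]; ring
    intro v hv
    obtain ⟨a, c, hac⟩ := mem_verts.1 hv
    obtain ⟨-, t, ht, hte⟩ := mem_quo.1 hac
    have htv : t.1 ∈ verts (Reg G1 D lam (Lb b)) := mem_verts.2 ⟨t.2.1, t.2.2, ht⟩
    have hvt : g0 t.1 = v := congrArg Prod.fst hte
    by_cases hr : ∃ i, t.1 = lam (Lb b) i
    · obtain ⟨i, hi⟩ := hr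
      obtain ⟨i', hi'⟩ := hring i
      rw [← hvt, hi, hi']
      exact Or.inr (hint _ hL1 (by omega) i')
    · have hv' : v = t.1 := by
        rw [← hvt]
        exact hoff _ fun i hi => hr ⟨i, hi⟩
      rw [hv']
      rcases hregv _ htv with h | ⟨j, hj, i, hi⟩
      · exact Or.inl h
      · rcases Nat.eq_zero_or_pos j with rfl | hj0
        · left
          rw [hi, hl0]
          -- C i is a vertex of D
          have h := (hA.sideD.jump (C i) (C (i - 1))).2 ⟨-i, by simp, by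
            congr 1; ring⟩
          obtain ⟨⟨z, hz⟩, -⟩ := h
          exact mem_verts.2 ⟨_, _, hz⟩
        · rw [hi]
          exact Or.inr (hint _ hj0 (by omega) i)
  · -- the near part is a sphere
    obtain ⟨-, hA0⟩ := h0
    have h := ((hA0 _ _ _ _ hQ).2 _ hside).2.1
    have h' := sph_cap h17 h11 hQ h
    have e : quo g0 G1 \ (quo g0 G1 \ quo g0 (Reg G1 D lam (Lb b))) =
        quo g0 (Reg G1 D lam (Lb b)) := by
      rw [Finset.sdiff_sdiff_eq_self hside.sub]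
    rw [e] at h'
    exact h'
  · rw [← hOw]
    simp only [mapT]
    rw [hfl _ hL1 le_rfl, hfl _ hL1 le_rfl, hfl _ hL1 le_rfl]

theorem c3_neg (C : ZMod 3 → ℕ) : c3 (C 0) (C 2) (C 1) = fun i => C (-i) := by
  funext i
  fin_cases i
  · rfl
  · rfl
  · rfl

/-- the case `b = 3` -/
theorem three_side (hA0 : A0Stmt) {F F0 : Finset Tri} {g : GD} (hF : Sph F) (hg : g.Good F)
    (hb : ¬ 4 ≤ g.b) (hs0 : Side F0 (fun i => g.C (-i)) g.D) (hc0 : Cyc F0 g.C) (hF0 : Sph F0) :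
    Side3 F (g.C ((0 : ℕ) : ZMod g.b)) (g.C ((2 : ℕ) : ZMod g.b)) (g.C ((1 : ℕ) : ZMod g.b)) g.D ∧
    Side3 F0 (g.C ((0 : ℕ) : ZMod g.b)) (g.C ((2 : ℕ) : ZMod g.b)) (g.C ((1 : ℕ) : ZMod g.b))
      g.D := by
  obtain ⟨b, C, D, K, θ, d⟩ := g
  obtain ⟨h3, hA⟩ := hg
  simp only at hA hb hs0 hc0 h3 ⊢
  obtain rfl : b = 3 := by omega
  have key : ∀ F : Finset Tri, Sph F → Cyc F C → Side F (fun i => C (-i)) D →
      Side3 F (C ((0 : ℕ) : ZMod 3)) (C ((2 : ℕ) : ZMod 3)) (C ((1 : ℕ) : ZMod 3)) D := by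
    intro F hF hc hs
    refine (hA0.1 F _ _ _ D hF.toPre).2 ?_
    rw [show c3 (C ((0 : ℕ) : ZMod 3)) (C ((2 : ℕ) : ZMod 3)) (C ((1 : ℕ) : ZMod 3)) =
      fun i => C (-i) from c3_neg C]
    refine ⟨⟨le_rfl, fun i j h => neg_injective (hc.inj h), fun i => ?_⟩, hs⟩
    have := hF.toPre.adj_symm (hc.adj (-(i + 1)))
    rwa [show -(i + 1) + 1 = -i by ring] at this
  exact ⟨key F hF hA.cyc hA.sideD, key F0 hF0 hc0 hs0⟩

theorem r1 (h0 : A0Stmt) (h11 : A11Stmt) (h14 : A14Stmt) (h17 : A17Stmt) (hW5 : W5Stmt)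
    (hP11 : P11Stmt) (hC3 : C3Stmt) (hC1 : C1Stmt) (hC2 : C2Stmt) (hN1 : N1Stmt) (hN2 : N2Stmt)
    (hG15 : G15Stmt) (hG17 : G17Stmt) : R1Stmt := by
  intro F0 o p F g hF0 hp hs0 hc0 ho hF hg
  by_cases hb : 4 ≤ g.b
  · have hoD : o ∉ g.D := fun h => ho _ (isV_fst o) (isV_mem_verts hs0.rot h (isV_fst o))
    obtain ⟨Y, hY, hpY, hDY, hsY, -, hvY⟩ := hG15 F0 o p g.b g.C g.D hF0 hp hc0 hs0 hoD
    obtain ⟨G, S, x, y, z, f, hr, hS, hDS, hvS, hsph, hdom, hfO, hfD⟩ :=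
      near_red h0 h11 h17 hW5 hP11 hC3 hC1 hC2 hN1 hN2 hF hg hb hY hDY hsY hpY.mem hoD hvY
    have hfx : f x = o.1 := congrArg Prod.fst hfO
    have hfy : f y = o.2.1 := congrArg (fun t : Tri => t.2.1) hfO
    have hfz : f z = o.2.2 := congrArg (fun t : Tri => t.2.2) hfO
    have hoN := hY.toPre.nd (a := o.1) (b := o.2.1) (c := o.2.2) hpY.mem
    have hcap : (x, y, z) ∈ S ∪ rots (x, y, z) := Finset.mem_union_right _ (by simp [rots])
    have hT1 : Set.InjOn f ({v | v ∈ verts g.D} ∪ {x, y, z}) := by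
      have ho1 : ∀ v ∈ verts g.D, v ≠ o.1 := fun v h e => ho _ (Or.inl rfl) (e ▸ h)
      have ho2 : ∀ v ∈ verts g.D, v ≠ o.2.1 := fun v h e => ho _ (Or.inr (Or.inl rfl)) (e ▸ h)
      have ho3 : ∀ v ∈ verts g.D, v ≠ o.2.2 := fun v h e => ho _ (Or.inr (Or.inr rfl)) (e ▸ h)
      have hval : ∀ v ∈ ({v | v ∈ verts g.D} ∪ {x, y, z} : Set ℕ),
          (v ∈ verts g.D ∧ f v = v) ∨ (v = x ∧ f v = o.1) ∨ (v = y ∧ f v = o.2.1) ∨
            (v = z ∧ f v = o.2.2) := by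
        rintro v (hv | rfl | rfl | rfl)
        · exact Or.inl ⟨hv, hfD v hv⟩
        · exact Or.inr (Or.inl ⟨rfl, hfx⟩)
        · exact Or.inr (Or.inr (Or.inl ⟨rfl, hfy⟩))
        · exact Or.inr (Or.inr (Or.inr ⟨rfl, hfz⟩))
      intro v hv v' hv' e
      rcases hval v hv with h | h | h | h <;> rcases hval v' hv' with h' | h' | h' | h'
      all_goals
        obtain ⟨ha, hfv⟩ := h
        obtain ⟨ha', hfv'⟩ := h'
        have e' := hfv.symm.trans (e.trans hfv')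
        first
        | exact e'
        | exact ha.trans ha'.symm
        | exact absurd e' (ho1 _ ha)
        | exact absurd e' (ho2 _ ha)
        | exact absurd e' (ho3 _ ha)
        | exact absurd e'.symm (ho1 _ ha')
        | exact absurd e'.symm (ho2 _ ha')
        | exact absurd e'.symm (ho3 _ ha')
        | exact absurd e' hoN.1
        | exact absurd e'.symm hoN.1
        | exact absurd e' hoN.2.1
        | exact absurd e'.symm hoN.2.1
        | exact absurd e' hoN.2.2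
        | exact absurd e'.symm hoN.2.2
    have hT2 : ∀ v, isV v (x, y, z) → v ∈ ({v | v ∈ verts g.D} ∪ {x, y, z} : Set ℕ) := by
      rintro v (rfl | rfl | rfl)
      · exact Or.inr (Or.inl rfl)
      · exact Or.inr (Or.inr (Or.inl rfl))
      · exact Or.inr (Or.inr (Or.inr rfl))
    have hT3 : ∀ t ∈ ({v | v ∈ verts g.D} ∪ {x, y, z} : Set ℕ),
        ∃ a b, (t, a, b) ∈ S ∪ rots (x, y, z) ∧ Nd (mapT f (t, a, b)) := by
      have hcapN : ∀ a b c, (a, b, c) ∈ rots (x, y, z) → Nd (mapT f (a, b, c)) := by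
        intro a b c h
        rcases mem_rots.1 h with h | h | h <;> injection h with h1 h2 <;>
          injection h2 with h2 h3 <;> subst h1 <;> subst h2 <;> subst h3 <;>
          simp only [mapT, Nd, hfx, hfy, hfz]
        · exact hoN
        · exact ⟨hoN.2.1, hoN.2.2, hoN.1⟩
        · exact ⟨hoN.2.2, hoN.1, hoN.2.1⟩
      rintro v (hv | rfl | rfl | rfl)
      · obtain ⟨a, c, hac⟩ := mem_verts.1 hv
        refine ⟨a, c, Finset.mem_union_left _ (hDS hac), ?_⟩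
        have h1 := hfD v hv
        have h2 := hfD a (isV_mem_verts hs0.rot hac (Or.inr (Or.inl rfl)))
        have h3 := hfD c (isV_mem_verts hs0.rot hac (Or.inr (Or.inr rfl)))
        simp only [mapT, h1, h2, h3]
        exact hY.toPre.nd (hDY hac)
      · exact ⟨y, z, hcap, hcapN _ _ _ (by simp [rots])⟩
      · exact ⟨z, x, Finset.mem_union_right _ (by simp [rots]), hcapN _ _ _ (by simp [rots])⟩
      · exact ⟨x, y, Finset.mem_union_right _ (by simp [rots]), hcapN _ _ _ (by simp [rots])⟩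
    obtain ⟨q, hq, hqT⟩ := h14 f (S ∪ rots (x, y, z)) Y (x, y, z) o p
      ({v | v ∈ verts g.D} ∪ {x, y, z}) hsph hY hdom hcap hfO hpY hT1 hT2 hT3
    refine ⟨G, S, x, z, y, q, hr, hS, hDS, hvS, hq, fun v hv => ?_⟩
    rw [hqT v (Or.inl hv), hfD v hv]
  · obtain ⟨hx, hy⟩ := three_side (hA0 := h0) hF hg hb hs0 hc0 hF0
    have hoD : o ∉ g.D := fun h => ho _ (isV_fst o) (isV_mem_verts hs0.rot h (isV_fst o))
    exact ⟨F, g.D, _, _, _, p, ReflTransGen.refl, hx, subset_rfl, fun v hv => Or.inl hv,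
      (hG17 F0 g.D _ _ _ o p hF0 hp hy).1 hoD, fun _ _ => rfl⟩

theorem r2 (h0 : A0Stmt) (h11 : A11Stmt) (h14 : A14Stmt) (h17 : A17Stmt) (hW5 : W5Stmt)
    (hP11 : P11Stmt) (hC3 : C3Stmt) (hC1 : C1Stmt) (hC2 : C2Stmt) (hN1 : N1Stmt) (hN2 : N2Stmt)
    (hG16 : G16Stmt) (hG17 : G17Stmt) : R2Stmt := by
  intro F0 o p F g hF0 hp hs0 hc0 ho hF hg
  by_cases hb : 4 ≤ g.b
  · obtain ⟨Y, hY, hpY, hDY, hsY, hvY⟩ := hG16 F0 o p g.b g.C g.D hF0 hp hc0 hs0 ho
    -- a face of Y outside D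
    have hex : ∃ O ∈ Y, O ∉ g.D := by
      have h := (hsY.jump (g.C 0) (g.C (0 - 1))).2 ⟨0, by simp, by
        congr 1; ring⟩
      obtain ⟨-, z, hz, hz'⟩ := h
      exact ⟨_, hz, hz'⟩
    obtain ⟨O, hO, hOD⟩ := hex
    obtain ⟨G, S, x, y, z, f, hr, hS, hDS, hvS, hsph, hdom, hfO, hfD⟩ :=
      near_red h0 h11 h17 hW5 hP11 hC3 hC1 hC2 hN1 hN2 hF hg hb hY hDY hsY hO hOD
        (fun v hv => Or.inl (hvY v hv))
    have hT1 : Set.InjOn f {v | v ∈ verts g.D} := by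
      intro v hv v' hv' e
      rwa [hfD v hv, hfD v' hv'] at e
    have hT2 : ∀ v, isV v o → v ∈ {v | v ∈ verts g.D} := fun v hv =>
      isV_mem_verts hs0.rot ho hv
    have hT3 : ∀ t ∈ {v | v ∈ verts g.D},
        ∃ a b, (t, a, b) ∈ S ∪ rots (x, y, z) ∧ Nd (mapT f (t, a, b)) := by
      intro v hv
      obtain ⟨a, c, hac⟩ := mem_verts.1 hv
      refine ⟨a, c, Finset.mem_union_left _ (hDS hac), ?_⟩
      have h1 := hfD v hv
      have h2 := hfD a (isV_mem_verts hs0.rot hac (Or.inr (Or.inl rfl)))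
      have h3 := hfD c (isV_mem_verts hs0.rot hac (Or.inr (Or.inr rfl)))
      simp only [mapT, h1, h2, h3]
      exact hY.toPre.nd (hDY hac)
    have hfo : mapT f o = o := by
      simp only [mapT]
      rw [hfD _ (hT2 _ (Or.inl rfl)), hfD _ (hT2 _ (Or.inr (Or.inl rfl))),
        hfD _ (hT2 _ (Or.inr (Or.inr rfl)))]
    obtain ⟨q, hq, hqT⟩ := h14 f (S ∪ rots (x, y, z)) Y o o p {v | v ∈ verts g.D} hsph hY hdom
      (Finset.mem_union_left _ (hDS ho)) hfo hpY hT1 hT2 hT3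
    refine ⟨G, S, x, z, y, q, hr, hS, hDS, hvS, hq, fun v hv => ?_⟩
    rw [hqT v hv, hfD v hv]
  · obtain ⟨hx, hy⟩ := three_side (hA0 := h0) hF hg hb hs0 hc0 hF0
    exact ⟨F, g.D, _, _, _, p, ReflTransGen.refl, hx, subset_rfl, fun v hv => Or.inl hv,
      (hG17 F0 g.D _ _ _ o p hF0 hp hy).2 ho, fun _ _ => rfl⟩

end Pool.Agent.H3.RCR
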