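import Pool.Agent.H3.RCR.Util

/-! # RCR, module R4: the inner groups and the far vertex -/

namespace Pool.Agent.H3.RCR

open Relation

/-- replacing a side of a 3-cycle by a face gives a sphere -/
theorem sph_cap (h17 : A17Stmt) (h11 : A11Stmt) {F S : Finset Tri} {a b c : ℕ} (hF : Sph F)
    (hS : Side3 F a b c S) : Sph ((F \ S) ∪ rots (a, b, c)) :=
  (h17 _ _ _ _ hF (h11 F a b c S hF hS)).1

theorem r4 (h0 : A0Stmt) (h1 : A1Stmt) (h2 : A2Stmt) (h11 : A11Stmt) (h12 : A12Stmt)
    (h15 : A15Stmt) (h16 : A16Stmt) (h17 : A17Stmt) (h14 : G14Stmt) (hR1 : R1Stmt)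
    (hR3 : R3Stmt) : R4Stmt := by
  intro F0 o p hF0 hp L
  induction L with
  | nil =>
    intro F e v0 hF he hv0 hve _ _
    have hcard : 4 ≤ (verts F).card := by
      obtain ⟨a, b, c⟩ := e
      obtain ⟨hab, hbc, hca⟩ := hF.toPre.nd he
      have hsub : ({a, b, c, v0} : Finset ℕ) ⊆ verts F := by
        intro x hx
        simp only [Finset.mem_insert, Finset.mem_singleton] at hx
        rcases hx with rfl | rfl | rfl | rfl
        · exact isV_mem_verts hF.rot he (Or.inl rfl)
        · exact isV_mem_verts hF.rot he (Or.inr (Or.inl rfl))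
        · exact isV_mem_verts hF.rot he (Or.inr (Or.inr rfl))
        · exact hv0
      have h4 : ({a, b, c, v0} : Finset ℕ).card = 4 := by
        have h1 : v0 ≠ a := fun e => hve (Or.inl e)
        have h2 : v0 ≠ b := fun e => hve (Or.inr (Or.inl e))
        have h3 : v0 ≠ c := fun e => hve (Or.inr (Or.inr e))
        rw [Finset.card_insert_of_notMem, Finset.card_insert_of_notMem,
          Finset.card_insert_of_notMem, Finset.card_singleton]
        · simpa using h3.symm
        · simp only [Finset.mem_insert, Finset.mem_singleton, not_or]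
          exact ⟨hbc, h2.symm⟩
        · simp only [Finset.mem_insert, Finset.mem_singleton, not_or]
          exact ⟨hab, hca.symm, h1.symm⟩
      rw [← h4]
      exact Finset.card_le_card hsub
    obtain ⟨x, hok⟩ := h12 F hF hcard v0 hv0
    obtain ⟨-, hv, -, -, -, hk, -, -⟩ := h1 F v0 x hF.toPre hok
    obtain ⟨q, hq⟩ := h15 (contr F v0 x) e (h2 F v0 x hF hok) (hk e he hve)
    refine ⟨contr F v0 x, q, ReflTransGen.single ⟨v0, x, Or.inl rfl, trivial, hok, rfl⟩, hq, ?_,
      by simp⟩
    rw [hv]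
    exact Finset.card_erase_lt_of_mem hv0
  | cons g L ih =>
    intro F e v0 hF he hv0 hve hL hpw
    rw [List.pairwise_cons] at hpw
    obtain ⟨hdis, hpw⟩ := hpw
    obtain ⟨hg, hgD, hgC, hgo, hge, hgv⟩ := hL g (by simp)
    have hL' : ∀ g' ∈ L, _ := fun g' hg' => hL g' (List.mem_cons_of_mem _ hg')
    obtain ⟨G1, S, x, y, z, q1, hr1, hS, hDS, hvS, hq1, hq1p⟩ :=
      hR1 F0 o p F g hF0 hp hgD hgC hgo hF hg
    have hvS' : ∀ v ∈ verts S, v ∈ verts g.K := by
      intro v hv
      rcases hvS v hv with h | h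
      · exact hg.vertsDK h
      · exact h.1
    obtain ⟨hG1, hkeep, hsubV, hstay, hadj⟩ := h17 _ _ _ _ hF hr1
    obtain ⟨-, hS0⟩ := h0
    have hS0' := (hS0 G1 x y z hG1).2 S hS
    obtain ⟨-, -, -, -, hxS, hyS, hzS, -⟩ := hS0'
    have hX := sph_cap h17 h11 hG1 hS
    set X := (G1 \ S) ∪ rots (x, y, z) with hXdef
    have heG1 : e ∈ G1 := hkeep e he fun v hv hv' => hge v hv hv'.1
    have heS : e ∉ S := fun h => hge e.1 (isV_fst e) (hvS' _ (isV_mem_verts hS.rot h (isV_fst e)))
    have heX : e ∈ X := Finset.mem_union_left _ (Finset.mem_sdiff.2 ⟨heG1, heS⟩)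
    have hv0G1 : v0 ∈ verts G1 := hstay v0 hv0 fun h => hgv h.1
    have hv0S : v0 ∉ verts S := fun h => hgv (hvS' _ h)
    have hv0X : v0 ∈ verts X := by
      obtain ⟨a, c, hac⟩ := mem_verts.1 hv0G1
      refine mem_verts.2 ⟨a, c, Finset.mem_union_left _ (Finset.mem_sdiff.2 ⟨hac, fun h => ?_⟩)⟩
      exact hv0S (mem_verts.2 ⟨a, c, h⟩)
    have hrotv : ∀ v, isV v (x, y, z) → v ∈ verts S := by
      rintro v (rfl | rfl | rfl)
      · exact hxS
      · exact hyS
      · exact hzS
    have hdisj : ∀ g' ∈ L, ∀ v ∈ verts g'.K, v ∉ verts g.K := fun g' hg' v hv hv' =>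
      Finset.disjoint_left.1 (hdis g' hg') hv' hv
    -- the other groups are good in X
    have hgood : ∀ g' ∈ L, g'.Good X := by
      intro g' hg'
      obtain ⟨hgg, -⟩ := hL' g' hg'
      refine ⟨hgg.1, hR3 F X _ _ _ _ _ _ _ hF hX hgg.2 ?_ ?_⟩
      · intro t ht
        have htv : ∀ v, isV v t → v ∈ verts g'.K := fun v hv => isV_mem_verts hgg.rotK ht hv
        refine Finset.mem_union_left _ (Finset.mem_sdiff.2 ⟨hkeep t (hgg.subK ht) ?_, ?_⟩)
        · exact fun v hv hv' => hdisj g' hg' v (htv v hv) hv'.1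
        · exact fun h => hdisj g' hg' _ (htv _ (isV_fst t))
            (hvS' _ (isV_mem_verts hS.rot h (isV_fst t)))
      · rintro a ha b hb ⟨c, hc⟩
        rcases Finset.mem_union.1 hc with hc | hc
        · refine (hadj a b ?_ ?_ ?_ ?_).1 ⟨c, (Finset.mem_sdiff.1 hc).1⟩
          · exact fun h => hdisj g' hg' a ha h.1
          · exact fun h => hdisj g' hg' a ha h
          · exact fun h => hdisj g' hg' b hb h.1
          · exact fun h => hdisj g' hg' b hb h
        · exact absurd (hvS' _ (hrotv _ (isV_of_mem_rots hc (Or.inl rfl)))) (hdisj g' hg' a ha)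
    obtain ⟨X', q2, hr2, hq2, hlt, hbtw⟩ := ih X e v0 hX heX hv0X hve
      (fun g' hg' => ⟨hgood g' hg', (hL' g' hg').2⟩) hpw
    -- lift
    obtain ⟨F', hr3, hS', hX', hcard⟩ := h16 G1 S x y z _ _ X' hG1 hS (fun v hv hv' => by
      rcases hv' with rfl | ⟨g', hg', hv', -⟩
      · exact hv0S hv
      · exact hdisj g' hg' v hv' (hvS' v hv)) hr2
    have hF'sph := (h17 _ _ _ _ hG1 hr3).1
    have heX' : e ∈ X' := hq2.mem
    have heF' : e ∈ F' \ S := by
      rw [hX'] at heX'
      rcases Finset.mem_union.1 heX' with h | h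
      · exact h
      · exact absurd (hvS' _ (hrotv _ (isV_of_mem_rots h (isV_fst e)))) (hge _ (isV_fst e))
    obtain ⟨q, hq, hqX, hqS⟩ := h14 F' S x y z e q2 q1 hF'sph hS' (Finset.mem_sdiff.1 heF').1 heS
      (hX' ▸ hq2) hq1
    refine ⟨F', q, ?_, hq, ?_, ?_⟩
    · refine ReflTransGen.trans (Red.mono ?_ (Set.subset_univ _) hr1)
        (Red.mono ?_ (Set.subset_univ _) hr3)
      · exact fun v hv => Or.inr ⟨g, by simp, hv.1, hv.2.1⟩
      · rintro v (rfl | ⟨g', hg', hv⟩)
        · exact Or.inl rfl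
        · exact Or.inr ⟨g', List.mem_cons_of_mem _ hg', hv⟩
    · have h5 : (verts G1).card ≤ (verts F).card := Finset.card_le_card hsubV
      rw [← hXdef] at hcard
      omega
    · intro g' hg' t ht hb
      rcases List.mem_cons.1 hg' with rfl | hg'
      · refine hqS t (fun v hv => verts_mono hDS (ht v hv)) (btw_congr (fun v hv => ?_) hb)
        exact hq1p v (ht v hv)
      · refine btw_congr (fun v hv => hqX v ?_) (hbtw g' hg' t ht hb)
        -- the faces of g'.D persist
        obtain ⟨a, c, hac⟩ := mem_verts.1 (ht v hv)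
        have hgg := hgood g' hg'
        have hDK := hgg.2.sub
        have hX1 : (v, a, c) ∈ X := hgg.subK (hDK hac)
        have hX2 : (v, a, c) ∈ X' := by
          refine (h17 _ _ _ _ hX hr2).2.1 _ hX1 ?_
          rintro w hw (rfl | ⟨g'', hg'', hw', hw''⟩)
          · exact (hL' g' hg').2.2.2.2.2 (hgg.vertsDK (isV_mem_verts hgg.rotD hac hw))
          · have hwD : w ∈ verts g'.D := isV_mem_verts hgg.rotD hac hw
            have hne : g'' ≠ g' := by
              rintro rfl
              exact hw'' hwD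
            have : Std.Symm (fun g h : GD => Disjoint (verts g.K) (verts h.K)) :=
              ⟨fun _ _ h => Disjoint.symm h⟩
            have hd := hpw.forall hg'' hg' hne
            exact Finset.disjoint_left.1 hd hw' (hgg.vertsDK hwD)
        rw [hX'] at hX2
        rcases Finset.mem_union.1 hX2 with h | h
        · exact mem_verts.2 ⟨a, c, h⟩
        · exact absurd (hvS' _ (hrotv _ (isV_of_mem_rots h (Or.inl rfl))))
            (hdisj g' hg' v (hgg.vertsDK (ht v hv)))

end Pool.Agent.H3.RCR
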