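import Pool.Agent.H3.RCR.Defs2
import Pool.Agent.H3.RCR.Stmts

/-!
# Project RCR: statements of the modules, part 2
-/

namespace Pool.Agent.H3.RCR

open Relation N68a2faeb

/-! ## S. Selection of annuli -/

/-- A20: Stokes -/
def A20Stmt : Prop := ∀ (M : Type) [AddCommGroup M] (F S : Finset Tri) (m : ℕ)
  (c : ZMod m → ℕ) (ψ : ℕ → ℕ → M), Pre F → Cyc F c → Side F c S → (∀ a b, ψ a b = - ψ b a) →
  ∑ t ∈ S, ψ t.1 t.2.1 = ∑ i ∈ Finset.range m, ψ (c (i : ZMod m)) (c ((i : ZMod m) + 1))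

/-- SC1: winding forms exist -/
def SC1Stmt : Prop := ∀ (F : Finset Tri) (f1 f2 : Tri), Sph F → f1 ∈ F → f2 ∈ F →
  ∃ ψ, Wind F f1 f2 ψ

/-- SC2: a separating set contains a closed walk with nonzero winding -/
def SC2Stmt : Prop := ∀ (F : Finset Tri) (f1 f2 : Tri) (ψ : ℕ → ℕ → ℤ) (P S : Finset ℕ), Sph F →
  f1 ∈ F → f2 ∈ F → Wind F f1 f2 ψ → (∀ x, isV x f1 → x ∈ P) → (∀ x, isV x f2 → x ∉ P ∧ x ∉ S) →
  Disjoint P S → (∀ x ∈ P, ∀ y, Adj F x y → y ∈ P ∨ y ∈ S) →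
  ∃ n w, CWalk F {x | x ∈ S} n w ∧ wsum ψ n w ≠ 0

/-- SC3: shortest closed walks with nonzero winding -/
def SC3Stmt : Prop := ∀ (F : Finset Tri) (f1 f2 : Tri) (ψ : ℕ → ℕ → ℤ) (R : Set ℕ) (n0 : ℕ)
  (w0 : ℕ → ℕ), Sph F → f1 ∈ F → f2 ∈ F → Wind F f1 f2 ψ → CWalk F R n0 w0 → wsum ψ n0 w0 ≠ 0 →
  ∃ (b : ℕ) (C : ZMod b → ℕ), Cyc F C ∧ (∀ i, C i ∈ R) ∧ b ≤ n0 ∧
    (∀ i j, Adj F (C i) (C j) → j = i + 1 ∨ i = j + 1) ∧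
    (∀ n w, CWalk F R n w → (b : ℤ) * |wsum ψ n w| ≤ n) ∧
    ∑ i ∈ Finset.range b, ψ (C (i : ZMod b)) (C ((i : ZMod b) + 1)) = -1 ∧
    ∃ D, Side F (fun i => C (-i)) D ∧ f1 ∈ D ∧ f2 ∉ D

/-- SC4: potentials exist if there are no negative closed walks -/
def SC4Stmt : Prop := ∀ (F : Finset Tri) (R : Finset ℕ) (c : ℕ → ℕ → ℤ),
  (∀ n w, CWalk F {x | x ∈ R} n w → 0 ≤ wsum c n w) →
  ∃ π : ℕ → ℤ, ∀ x ∈ R, ∀ y ∈ R, Adj F x y → π y ≤ π x + c x y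

/-- a growing chain of connected sets of vertices with connected complements -/
structure Chain (F : Finset Tri) (H : ℕ) (Kc : ℕ → Finset ℕ) : Prop where
  sub : ∀ s ≤ H, Kc s ⊆ verts F
  mono : ∀ s < H, Kc s ⊆ Kc (s + 1)
  nbr : ∀ s < H, ∀ x ∈ Kc s, ∀ y, Adj F x y → y ∈ Kc (s + 1)
  conn : ∀ s ≤ H, ∀ x ∈ Kc s, ∀ y ∈ Kc s, ReflTransGen (fun a b => Adj F a b ∧ b ∈ Kc s) x y
  coconn : ∀ s ≤ H, ∀ x ∈ verts F, ∀ y ∈ verts F, x ∉ Kc s → y ∉ Kc s →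
    ReflTransGen (fun a b => Adj F a b ∧ b ∉ Kc s) x y

/-- SC5: a tight cycle in a long chain. `b` is the length of the shortest closed walks around
`Kc 0`, both in `Kc s` and in `Kc (s + h)` -/
def SC5Stmt : Prop := ∀ (β h : ℕ), ∃ H, ∀ (F : Finset Tri) (Kc : ℕ → Finset ℕ) (f1 f2 : Tri)
  (ψ : ℕ → ℕ → ℤ), Sph F → Chain F H Kc → f1 ∈ F → f2 ∈ F → (∀ x, isV x f1 → x ∈ Kc 0) →
  (∀ x, isV x f2 → x ∉ Kc H) → Wind F f1 f2 ψ →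
  (∀ B : Finset ℕ, (∀ x ∈ B, x ∈ Kc 1 ∧ ∃ y, Adj F x y ∧ y ∉ Kc 1) → B.card ≤ β) →
  ∃ (s b : ℕ) (C : ZMod b → ℕ), s + h ≤ H ∧ b ≤ β ∧ Cyc F C ∧
    (∀ i, C i ∈ Kc s ∧ C i ∉ Kc 0) ∧
    (∀ i j, Adj F (C i) (C j) → j = i + 1 ∨ i = j + 1) ∧
    (∀ n w, CWalk F {x | x ∈ Kc (s + h) ∧ x ∉ Kc 0} n w → (b : ℤ) * |wsum ψ n w| ≤ n) ∧
    ∑ i ∈ Finset.range b, ψ (C (i : ZMod b)) (C ((i : ZMod b) + 1)) = -1 ∧
    ∃ D, Side F (fun i => C (-i)) D ∧ f1 ∈ D ∧ f2 ∉ D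

/-- SC6: the annulus around a tight cycle -/
def SC6Stmt : Prop := ∀ (F : Finset Tri) (H s h b N : ℕ) (Kc : ℕ → Finset ℕ) (f1 f2 : Tri)
  (ψ : ℕ → ℕ → ℤ) (C : ZMod b → ℕ) (D : Finset Tri), Sph F → Chain F H Kc → f1 ∈ F → f2 ∈ F →
  (∀ x, isV x f1 → x ∈ Kc 0) → (∀ x, isV x f2 → x ∉ Kc H) → Wind F f1 f2 ψ →
  s + h ≤ H → 1 ≤ N → N ≤ h → Cyc F C → (∀ i, C i ∈ Kc s ∧ C i ∉ Kc 0) →
  (∀ i j, Adj F (C i) (C j) → j = i + 1 ∨ i = j + 1) →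
  (∀ n w, CWalk F {x | x ∈ Kc (s + h) ∧ x ∉ Kc 0} n w → (b : ℤ) * |wsum ψ n w| ≤ n) →
  ∑ i ∈ Finset.range b, ψ (C (i : ZMod b)) (C ((i : ZMod b) + 1)) = -1 →
  Side F (fun i => C (-i)) D → f1 ∈ D → f2 ∉ D →
  ∃ K θ d, Ann F b N C D K θ d ∧ (∀ x ∈ Kc 0, ∀ p q, (x, p, q) ∈ F → (x, p, q) ∈ D) ∧
    verts K ⊆ Kc (s + h)

/-- S1: balls are small -/
def S1Stmt : Prop := ∀ (F : Finset Tri) (T : Finset ℕ) (Δ n : ℕ), Pre F → T ⊆ verts F →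
  (∀ v ∈ verts F, deg F v ≤ Δ) → (ball F T n).card ≤ T.card * (Δ + 1) ^ n

/-- the vertices that are cut off from `v0` by the ball of radius `s` around `T` (the ball
included) -/
def Kt (F : Finset Tri) (T : Finset ℕ) (v0 s : ℕ) : Set ℕ :=
  {x | x ∈ verts F ∧ ¬ ReflTransGen (fun a b => Adj F a b ∧ b ∉ ball F T s) v0 x}

open Classical in
/-- the component of `t` in `Kt` -/
noncomputable def cpt (F : Finset Tri) (T : Finset ℕ) (v0 s t : ℕ) : Finset ℕ :=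
  (verts F).filter (fun y => ReflTransGen (fun a b => Adj F a b ∧ b ∈ Kt F T v0 s) t y)

/-- S2: components of filled balls -/
def S2Stmt : Prop := ∀ (F : Finset Tri) (T : Finset ℕ) (v0 H : ℕ), Sph F → T ⊆ verts F →
  v0 ∈ verts F → v0 ∉ ball F T H → ∀ t ∈ T,
  (∀ s ≤ H, t ∈ cpt F T v0 s t ∧ (∀ x ∈ cpt F T v0 s t, x ∈ Kt F T v0 s)) ∧
  (∀ s < H, cpt F T v0 s t ⊆ cpt F T v0 (s + 1) t ∧
    ∀ x ∈ cpt F T v0 s t, ∀ y, Adj F x y → y ∈ cpt F T v0 (s + 1) t) ∧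
  (∀ s ≤ H, ∀ x ∈ cpt F T v0 s t, ∀ y ∈ cpt F T v0 s t,
    ReflTransGen (fun a b => Adj F a b ∧ b ∈ cpt F T v0 s t) x y) ∧
  (∀ s ≤ H, ∀ x ∈ verts F, ∀ y ∈ verts F, x ∉ cpt F T v0 s t → y ∉ cpt F T v0 s t →
    ReflTransGen (fun a b => Adj F a b ∧ b ∉ cpt F T v0 s t) x y) ∧
  (∀ s ≤ H, ∀ t' ∈ T, (∃ x, x ∈ cpt F T v0 s t ∧ x ∈ cpt F T v0 s t') →
    cpt F T v0 s t = cpt F T v0 s t') ∧
  (∀ s ≤ H, ∀ x ∈ cpt F T v0 s t, (∃ y, Adj F x y ∧ y ∉ cpt F T v0 s t) → x ∈ ball F T s)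

/-- S3: pigeonhole for coarsening equivalence relations -/
def S3Stmt : Prop := ∀ (T : Finset ℕ) (E : ℕ → ℕ → ℕ → Prop), T.Nonempty →
  (∀ q, Equivalence (E q)) → (∀ q x y, E q x y → E (q + 1) x y) →
  ∃ q < T.card, ∀ x ∈ T, ∀ y ∈ T, E (q + 1) x y → E q x y

/-- S4: selection of disjoint annuli around all terminals, far from a far vertex `v0` -/
def S4Stmt : Prop := ∀ k Δ : ℕ, ∃ R, ∀ (F : Finset Tri) (T : Finset ℕ) (v0 : ℕ), Sph F →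
  T ⊆ verts F → T.Nonempty → T.card ≤ k → (∀ v ∈ verts F, deg F v ≤ Δ) → v0 ∈ verts F →
  v0 ∉ ball F T R →
  ∃ L : List GD, (∀ g ∈ L, g.Good F) ∧ L.Pairwise (fun g h => Disjoint (verts g.K) (verts h.K)) ∧
    (∀ t ∈ T, ∃ g ∈ L, ∀ p q, (t, p, q) ∈ F → (t, p, q) ∈ g.D) ∧ ∀ g ∈ L, v0 ∉ verts g.K

/-! ## P. The prism theorem -/

/-- the integral step of `θ` from `x` to `y` -/
def dl {b : ℕ} (θ : ℕ → ZMod b) (x y : ℕ) : ℤ :=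
  if θ y = θ x + 1 then 1 else if θ x = θ y + 1 then -1 else 0

/-- P0: basic facts about annuli -/
def P0Stmt : Prop := ∀ (F D K : Finset Tri) (b N : ℕ) (C : ZMod b → ℕ) (θ : ℕ → ZMod b)
  (d : ℕ → ℤ), Sph F → 1 ≤ N → Ann F b N C D K θ d →
  (∀ x ∈ verts (K \ D), IntV F D K x ∨ (∃ i, x = C i) ∨ (x ∈ verts K ∧ x ∈ verts (F \ K))) ∧
  (∀ i, C i ∈ verts (K \ D) ∧ C i ∈ verts D ∧ C i ∉ verts (F \ K)) ∧
  (∀ x, x ∈ verts K → x ∈ verts (F \ K) → x ∈ verts (K \ D) ∧ x ∉ verts D ∧ d x = N) ∧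
  (∀ x, IntV F D K x → ∀ p q, (x, p, q) ∈ F → (x, p, q) ∈ K \ D) ∧
  (∀ x, IntV F D K x → ∀ y, Adj F x y → y ∈ verts (K \ D)) ∧
  (∀ x ∈ verts D, x ∉ verts (F \ K)) ∧
  (∀ x ∈ verts D, (∀ i, x ≠ C i) → x ∉ verts (K \ D)) ∧
  (∀ x ∈ verts (K \ D), ∀ y ∈ verts (K \ D), Adj F x y →
    ∃ c, (x, y, c) ∈ K \ D ∨ (y, x, c) ∈ K \ D) ∧
  (∀ x ∈ verts (K \ D), ∀ y ∈ verts (K \ D), Adj F x y →
    ((dl θ x y : ℤ) : ZMod b) = θ y - θ x ∧ dl θ x y = - dl θ y x ∧ |dl θ x y| ≤ 1 ∧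
      |d y - d x| ≤ 1) ∧
  (4 ≤ b → ∀ x y c, (x, y, c) ∈ K \ D → dl θ x y + dl θ y c + dl θ c x = 0)

/-- P1: a separating triangle through an inner vertex bounds a part of the annulus -/
def P1Stmt : Prop := ∀ (F D K : Finset Tri) (b N : ℕ) (C : ZMod b → ℕ) (θ : ℕ → ZMod b)
  (d : ℕ → ℤ), Sph F → 4 ≤ b → 1 ≤ N → Ann F b N C D K θ d →
  ∀ x y z, IntV F D K x → Adj F x y → Adj F y z → Adj F z x →
  ∃ S, (Side3 F x y z S ∨ Side3 F x z y S) ∧ S ⊆ K \ D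

/-- P2: contraction of a double-zero edge -/
def P2Stmt : Prop := ∀ (F D K : Finset Tri) (b N : ℕ) (C : ZMod b → ℕ) (θ : ℕ → ZMod b)
  (d : ℕ → ℤ) (x y : ℕ), Sph F → 4 ≤ b → 1 ≤ N → Ann F b N C D K θ d → IntV F D K x → Ok F x y →
  θ x = θ y → d x = d y →
  ∃ K', Ann (contr F x y) b N C D K' θ d ∧ contr F x y \ K' = F \ K ∧
    ∀ u, IntV (contr F x y) D K' u → IntV F D K u

/-- P3: collapse of a part of the annulus bounded by a 3-cycle -/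
def P3Stmt : Prop := ∀ (F D K : Finset Tri) (b N : ℕ) (C : ZMod b → ℕ) (θ : ℕ → ZMod b)
  (d : ℕ → ℤ) (x y z : ℕ) (S : Finset Tri), Sph F → 4 ≤ b → 1 ≤ N → Ann F b N C D K θ d →
  Side3 F x y z S → S ⊆ K \ D → x ∈ verts (K \ D) → y ∈ verts (K \ D) → z ∈ verts (K \ D) →
  Ann ((F \ S) ∪ rots (x, y, z)) b N C D ((K \ S) ∪ rots (x, y, z)) θ d ∧
  ((F \ S) ∪ rots (x, y, z)) \ ((K \ S) ∪ rots (x, y, z)) = F \ K ∧
  (∀ u ∈ verts S, u ≠ x → u ≠ y → u ≠ z → IntV F D K u) ∧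
  ∀ u, IntV ((F \ S) ∪ rots (x, y, z)) D ((K \ S) ∪ rots (x, y, z)) u → IntV F D K u

/-- P4: a chord of the outer boundary can be cut off -/
def P4Stmt : Prop := ∀ (F D K : Finset Tri) (b N : ℕ) (C : ZMod b → ℕ) (θ : ℕ → ZMod b)
  (d : ℕ → ℤ) (x y : ℕ), Sph F → 1 ≤ N → Ann F b N C D K θ d →
  x ∈ verts K → x ∈ verts (F \ K) → y ∈ verts K → y ∈ verts (F \ K) → Adj F x y →
  ¬ Jump F K x y → ¬ Jump F K y x →
  ∃ K', K' ⊂ K ∧ Ann F b N C D K' θ d ∧ ∀ u, IntV F D K' u → IntV F D K u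

/-- P5: reduction to a tight annulus -/
def P5Stmt : Prop := ∀ (F D K : Finset Tri) (b N : ℕ) (C : ZMod b → ℕ) (θ : ℕ → ZMod b)
  (d : ℕ → ℤ), Sph F → 4 ≤ b → 2 ≤ N → Ann F b N C D K θ d →
  ∃ G K' θ' d', Red {x | IntV F D K x} {x | x ∈ verts K} F G ∧ Tight G b N C D K' θ' d' ∧
    F \ K ⊆ G \ K' ∧ ∀ u, IntV G D K' u → IntV F D K u

/-- P6: inner vertices of a tight annulus have upper and lower neighbours -/
def P6Stmt : Prop := ∀ (F D K : Finset Tri) (b N : ℕ) (C : ZMod b → ℕ) (θ : ℕ → ZMod b)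
  (d : ℕ → ℤ), Sph F → 4 ≤ b → 2 ≤ N → Tight F b N C D K θ d → ∀ x, IntV F D K x →
  (∃ y, Adj F x y ∧ d y = d x + 1) ∧ (∃ y, Adj F x y ∧ d y = d x - 1) ∧ 1 ≤ d x ∧ d x + 1 ≤ N

/-- the neighbour `y` of `x` is above `x` in the lexicographic order of `d` and `ε θ` -/
def sg {b : ℕ} (θ : ℕ → ZMod b) (d : ℕ → ℤ) (ε : ZMod b) (x y : ℕ) : Prop :=
  d x < d y ∨ (d x = d y ∧ θ y = θ x + ε)

open Classical in
/-- P7: index count -/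
def P7Stmt : Prop := ∀ (F D K : Finset Tri) (b N : ℕ) (C : ZMod b → ℕ) (θ : ℕ → ZMod b)
  (d : ℕ → ℤ) (ε : ZMod b), Sph F → 4 ≤ b → 2 ≤ N → Tight F b N C D K θ d → (ε = 1 ∨ ε = -1) →
  ∀ x, IntV F D K x →
  (F.filter (fun t => t.1 = x ∧ ¬ (sg θ d ε x t.2.1 ↔ sg θ d ε x t.2.2))).card = 2

/-- the local structure at an inner vertex: exactly two level neighbours `p`, `q`; walking around
`x` counterclockwise: lower neighbours, `p`, upper neighbours, `q`, lower neighbours -/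
structure Loc (F : Finset Tri) {b : ℕ} (θ : ℕ → ZMod b) (d : ℕ → ℤ) (x p q : ℕ) : Prop where
  pq : p ≠ q
  ap : Adj F x p
  aq : Adj F x q
  dp : d p = d x
  dq : d q = d x
  all : ∀ y, Adj F x y → d y = d x → y = p ∨ y = q
  tp : θ p = θ x + 1 ∨ θ x = θ p + 1
  tq : θ q = θ x + 1 ∨ θ x = θ q + 1
  pred_p : ∃ a, (x, a, p) ∈ F ∧ d a = d x - 1
  succ_p : ∃ a, (x, p, a) ∈ F ∧ d a = d x + 1
  pred_q : ∃ a, (x, a, q) ∈ F ∧ d a = d x + 1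
  succ_q : ∃ a, (x, q, a) ∈ F ∧ d a = d x - 1

/-- P8: local structure at an inner vertex -/
def P8Stmt : Prop := ∀ (F D K : Finset Tri) (b N : ℕ) (C : ZMod b → ℕ) (θ : ℕ → ZMod b)
  (d : ℕ → ℤ), Sph F → 4 ≤ b → 2 ≤ N → Tight F b N C D K θ d → ∀ x, IntV F D K x →
  ∃ p q, Loc F θ d x p q

/-- P9: no folds -/
def P9Stmt : Prop := ∀ (F D K : Finset Tri) (b N : ℕ) (C : ZMod b → ℕ) (θ : ℕ → ZMod b)
  (d : ℕ → ℤ), Sph F → 4 ≤ b → 2 ≤ N → Tight F b N C D K θ d → ∀ x, IntV F D K x →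
  ∃ p q, Loc F θ d x p q ∧ ((θ p = θ x + 1 ∧ θ x = θ q + 1) ∨ (θ x = θ p + 1 ∧ θ q = θ x + 1))

/-- P10: a tight annulus is a stack of rings -/
def P10Stmt : Prop := ∀ (F D K : Finset Tri) (b N : ℕ) (C : ZMod b → ℕ) (θ : ℕ → ZMod b)
  (d : ℕ → ℤ), Sph F → 4 ≤ b → 2 ≤ N → Tight F b N C D K θ d →
  ∃ lam : ℕ → ZMod b → ℕ, lam 0 = C ∧ Rings F b (N - 1) lam D ∧
    ∀ j, 1 ≤ j → j ≤ N - 1 → ∀ i, IntV F D K (lam j i)

/-- P11: the prism theorem -/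
def P11Stmt : Prop := ∀ (F D K : Finset Tri) (b N : ℕ) (C : ZMod b → ℕ) (θ : ℕ → ZMod b)
  (d : ℕ → ℤ), Sph F → 4 ≤ b → 2 ≤ N → Ann F b N C D K θ d →
  ∃ (G : Finset Tri) (lam : ℕ → ZMod b → ℕ), Red {x | IntV F D K x} {x | x ∈ verts K} F G ∧
    lam 0 = C ∧ Rings G b (N - 1) lam D ∧ ∀ j, 1 ≤ j → j ≤ N - 1 → ∀ i, IntV F D K (lam j i)

/-! ## W. The sweep theorem -/

/-- W1: a chord gives an ear different from `O` -/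
def W1Stmt : Prop := ∀ (Y R : Finset Tri) (O : Tri) (m : ℕ) (Γ : ZMod m → ℕ), Sph Y → Cyc Y Γ →
  Side Y Γ R → 4 ≤ m → O ∈ R → (∀ v ∈ verts R, (∃ i, v = Γ i) ∨ isV v O) →
  (∃ i j z, (Γ i, Γ j, z) ∈ R ∧ j ≠ i + 1 ∧ i ≠ j + 1) →
  ∃ i, (Γ (i - 1), Γ i, Γ (i + 1)) ∈ R ∧ (Γ (i - 1), Γ i, Γ (i + 1)) ∉ rots O

/-- W2: without chords there is a slide -/
def W2Stmt : Prop := ∀ (Y R : Finset Tri) (O : Tri) (m : ℕ) (Γ : ZMod m → ℕ), Sph Y → Cyc Y Γ →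
  Side Y Γ R → 4 ≤ m → O ∈ R → (∀ v ∈ verts R, (∃ i, v = Γ i) ∨ isV v O) →
  (∀ i j z, (Γ i, Γ j, z) ∈ R → j = i + 1 ∨ i = j + 1) →
  ∃ i q, (∀ j, q ≠ Γ j) ∧ (Γ (i - 1), Γ i, q) ∈ R ∧ (Γ i, Γ (i + 1), q) ∈ R ∧
    (Γ (i - 1), Γ i, q) ∉ rots O ∧ (Γ i, Γ (i + 1), q) ∉ rots O

/-- W3: insertions -/
def W3Stmt : Prop := ∀ (Y R : Finset Tri) (O : Tri) (Γ : ZMod 3 → ℕ), Sph Y → Cyc Y Γ →
  Side Y Γ R → O ∈ R → R ≠ rots O → ∀ i, ∃ j q, (j = i - 1 ∨ j = i) ∧ (∀ l, q ≠ Γ l) ∧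
    (Γ j, Γ (j + 1), q) ∈ R ∧ (Γ j, Γ (j + 1), q) ∉ rots O

/-- a state of the sweep -/
structure WS (Y : Finset Tri) (O : Tri) {b : ℕ} (w : ZMod b → ℕ) (R : Finset Tri) : Prop where
  cyc : ∃ (m : ℕ) (Γ : ZMod m → ℕ), Cyc Y Γ ∧ Side Y Γ R
  par : Par Y w R
  mem : O ∈ R
  vert : ∀ v ∈ verts R, (∃ i, v = w i) ∨ isV v O

/-- W4: one macro move -/
def W4Stmt : Prop := ∀ (Y R : Finset Tri) (O : Tri) (b : ℕ) (w : ZMod b → ℕ), Sph Y → 4 ≤ b →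
  WS Y O w R → R ≠ rots O →
  ∃ (n : ℕ) (R' : Finset Tri) (ws : ℕ → ZMod b → ℕ) (Xs : ℕ → Finset Tri), WS Y O (ws n) R' ∧
    R' ⊂ R ∧ n ≤ b ∧ ws 0 = w ∧ (∀ j < n, SM Y (ws j) (ws (j + 1)) (Xs j)) ∧
    (∀ j ≤ n, ∀ i, ws j i = ws j (i + 1) ∨ Adj Y (ws j i) (ws j (i + 1))) ∧
    (∀ j < n, ∀ j' < n, j ≠ j' → Disjoint (Xs j) (Xs j')) ∧
    ∀ t, (∃ j < n, t ∈ Xs j) ↔ (t ∈ R ∧ t ∉ R')

/-- W5: the sweep theorem -/
def W5Stmt : Prop := ∀ (Y D : Finset Tri) (b : ℕ) (C : ZMod b → ℕ) (O : Tri), Sph Y → 4 ≤ b →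
  Cyc Y C → Side Y (fun i => C (-i)) D → O ∈ Y → O ∉ D →
  (∀ v ∈ verts (Y \ D), (∃ i, v = C i) ∨ isV v O) →
  ∃ w X, Sweep Y D b (Lb b) C O w X

/-! ## C. Collapsing a ring -/

/-- C1: a ring in a thick stack can be collapsed to a triangle with prescribed corners -/
def C1Stmt : Prop := ∀ (G : Finset Tri) (b : ℕ) (R : ZMod b → ℕ) (E : Finset (ZMod b)), Sph G →
  Cyc G R → (∀ i j, Adj G (R i) (R j) → j = i + 1 ∨ i = j + 1) →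
  (∀ w, (∀ i, w ≠ R i) → (∃ i, Adj G w (R i)) →
    ∃ m, Adj G w (R m) ∧ ∀ i, Adj G w (R i) → i = m - 1 ∨ i = m ∨ i = m + 1) →
  (∀ w i, (∀ j, w ≠ R j) → Adj G w (R i) → Adj G w (R (i + 1)) →
    (R i, R (i + 1), w) ∈ G ∨ (R (i + 1), R i, w) ∈ G) →
  E.card = 3 →
  ∃ g : ℕ → ℕ, (∀ x, (∀ i, x ≠ R i) → g x = x) ∧ (∀ i ∈ E, g (R i) = R i) ∧
    (∀ i, i ∉ E → g (R i) = g (R (i + 1))) ∧
    (∀ t ∈ G, ∀ t' ∈ G, Nd (mapT g t) → mapT g t = mapT g t' → t = t') ∧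
    (∀ a b, Adj (quo g G) a b ↔ a ≠ b ∧ ∃ a' b', Adj G a' b' ∧ g a' = a ∧ g b' = b) ∧
    Red {x | ∃ i, x = R i} {x | ∃ i, x = R i} G (quo g G)

/-- the face of the quadrilateral `(j, i)` -/
def isQ {b : ℕ} (lam : ℕ → ZMod b → ℕ) (j : ℕ) (i : ZMod b) (t : Tri) : Prop :=
  t ∈ rots (lam j i, lam j (i + 1), lam (j + 1) i) ∨
  t ∈ rots (lam j (i + 1), lam (j + 1) (i + 1), lam (j + 1) i) ∨
  t ∈ rots (lam j i, lam j (i + 1), lam (j + 1) (i + 1)) ∨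
  t ∈ rots (lam j i, lam (j + 1) (i + 1), lam (j + 1) i)

open Classical in
/-- the disc bounded by the ring `L` -/
noncomputable def Reg (G D : Finset Tri) {b : ℕ} (lam : ℕ → ZMod b → ℕ) (L : ℕ) : Finset Tri :=
  D ∪ G.filter (fun t => ∃ j < L, ∃ i, isQ lam j i t)

/-- C2: the discs bounded by rings; the faces at ring vertices -/
def C2Stmt : Prop := ∀ (G D : Finset Tri) (b M : ℕ) (lam : ℕ → ZMod b → ℕ), Sph G → 4 ≤ b →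
  Rings G b M lam D →
  (∀ L ≤ M, Cyc G (lam L) ∧ Side G (fun i => lam L (-i)) (Reg G D lam L) ∧
    (∀ v ∈ verts (Reg G D lam L), v ∈ verts D ∨ ∃ j ≤ L, ∃ i, v = lam j i)) ∧
  (∀ j, j + 1 < M → ∀ i p q, (lam (j + 1) i, p, q) ∈ G →
    (∃ i', isQ lam j i' (lam (j + 1) i, p, q)) ∨ ∃ i', isQ lam (j + 1) i' (lam (j + 1) i, p, q)) ∧
  (1 ≤ M → ∀ i p q, (lam 0 i, p, q) ∈ G → (lam 0 i, p, q) ∈ D ∨
    ∃ i', isQ lam 0 i' (lam 0 i, p, q))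

/-- C3: the rings satisfy the hypotheses of C1 -/
def C3Stmt : Prop := ∀ (G D : Finset Tri) (b M L : ℕ) (lam : ℕ → ZMod b → ℕ), Sph G → 4 ≤ b →
  Rings G b M lam D → 1 ≤ L → L < M →
  Cyc G (lam L) ∧ (∀ i j, Adj G (lam L i) (lam L j) → j = i + 1 ∨ i = j + 1) ∧
  (∀ w, (∀ i, w ≠ lam L i) → (∃ i, Adj G w (lam L i)) →
    ∃ m, Adj G w (lam L m) ∧ ∀ i, Adj G w (lam L i) → i = m - 1 ∨ i = m ∨ i = m + 1) ∧
  (∀ w i, (∀ j, w ≠ lam L j) → Adj G w (lam L i) → Adj G w (lam L (i + 1)) →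
    (lam L i, lam L (i + 1), w) ∈ G ∨ (lam L (i + 1), lam L i, w) ∈ G)

/-! ## N. The near part -/

/-- the data of the near part: rings, sweep, collapse map -/
structure NearD (G D Y : Finset Tri) (b M L : ℕ) (lam : ℕ → ZMod b → ℕ) (O : Tri)
    (w : ℕ → ZMod b → ℕ) (X : ℕ → Finset Tri) (g : ℕ → ℕ) : Prop where
  sphG : Sph G
  sphY : Sph Y
  four : 4 ≤ b
  one : 1 ≤ L
  lt : L < M
  rings : Rings G b M lam D
  DY : D ⊆ Y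
  sideY : Side Y (fun i => lam 0 (-i)) D
  OY : O ∈ Y
  OD : O ∉ D
  sweep : Sweep Y D b L (lam 0) O w X
  goff : ∀ x, (∀ i, x ≠ lam L i) → g x = x
  gjump : ∀ i, w L i ≠ w L (i + 1) → g (lam L i) = lam L i
  gcon : ∀ i, w L i = w L (i + 1) → g (lam L i) = g (lam L (i + 1))
  ginj : ∀ t ∈ G, ∀ t' ∈ G, Nd (mapT g t) → mapT g t = mapT g t' → t = t'
  gadj : ∀ a b, Adj (quo g G) a b ↔ a ≠ b ∧ ∃ a' b', Adj G a' b' ∧ g a' = a ∧ g b' = b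
  sphQ : Sph (quo g G)

/-- N1: the near part is a side of a 3-cycle -/
def N1Stmt : Prop := ∀ (G D Y : Finset Tri) (b M L : ℕ) (lam : ℕ → ZMod b → ℕ) (O : Tri)
  (w : ℕ → ZMod b → ℕ) (X : ℕ → Finset Tri) (g : ℕ → ℕ), NearD G D Y b M L lam O w X g →
  ∃ i1 i2 i3 : ZMod b, (w L i1, w L i2, w L i3) = O ∧ w L i1 ≠ w L (i1 + 1) ∧
    w L i2 ≠ w L (i2 + 1) ∧ w L i3 ≠ w L (i3 + 1) ∧
    Side3 (quo g G) (lam L i1) (lam L i3) (lam L i2) (quo g (Reg G D lam L)) ∧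
    D ⊆ quo g (Reg G D lam L)

/-- N2: the map of the near part to `Y` -/
def N2Stmt : Prop := ∀ (G D Y : Finset Tri) (b M L : ℕ) (lam : ℕ → ZMod b → ℕ) (O : Tri)
  (w : ℕ → ZMod b → ℕ) (X : ℕ → Finset Tri) (g : ℕ → ℕ), NearD G D Y b M L lam O w X g →
  ∀ i1 i2 i3 : ZMod b, (w L i1, w L i2, w L i3) = O → w L i1 ≠ w L (i1 + 1) →
    w L i2 ≠ w L (i2 + 1) → w L i3 ≠ w L (i3 + 1) →
    Side3 (quo g G) (lam L i1) (lam L i3) (lam L i2) (quo g (Reg G D lam L)) →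
  ∃ f : ℕ → ℕ, (∀ v ∈ verts D, f v = v) ∧ (∀ j, 1 ≤ j → j ≤ L → ∀ i, f (lam j i) = w j i) ∧
    Dom f (quo g (Reg G D lam L) ∪ rots (lam L i1, lam L i2, lam L i3)) Y

/-! ## R. The reduction of an instance with a far vertex -/

/-- R1: inner groups: after contractions inside the annulus, the disc is separated by a triangle
and the near part has a realisation that agrees with `p` on `D` -/
def R1Stmt : Prop := ∀ (F0 : Finset Tri) (o : Tri) (p : ℕ → Pt) (F : Finset Tri) (g : GD),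
  Sph F0 → Real F0 o p → Side F0 (fun i => g.C (-i)) g.D → Cyc F0 g.C →
  (∀ x, isV x o → x ∉ verts g.D) → Sph F → g.Good F →
  ∃ (G S : Finset Tri) (x y z : ℕ) (q : ℕ → Pt),
    Red {u | IntV F g.D g.K u} {u | u ∈ verts g.K} F G ∧ Side3 G x y z S ∧ g.D ⊆ S ∧
    (∀ v ∈ verts S, v ∈ verts g.D ∨ IntV F g.D g.K v) ∧
    Real (S ∪ rots (x, z, y)) (x, z, y) q ∧ ∀ v ∈ verts g.D, q v = p v

/-- R2: the same for the outer group -/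
def R2Stmt : Prop := ∀ (F0 : Finset Tri) (o : Tri) (p : ℕ → Pt) (F : Finset Tri) (g : GD),
  Sph F0 → Real F0 o p → Side F0 (fun i => g.C (-i)) g.D → Cyc F0 g.C →
  o ∈ g.D → Sph F → g.Good F →
  ∃ (G S : Finset Tri) (x y z : ℕ) (q : ℕ → Pt),
    Red {u | IntV F g.D g.K u} {u | u ∈ verts g.K} F G ∧ Side3 G x y z S ∧ g.D ⊆ S ∧
    (∀ v ∈ verts S, v ∈ verts g.D ∨ IntV F g.D g.K v) ∧
    Real (S ∪ rots (x, z, y)) o q ∧ ∀ v ∈ verts g.D, q v = p v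

/-- R3: an annulus is not changed by what happens elsewhere -/
def R3Stmt : Prop := ∀ (F F' D K : Finset Tri) (b N : ℕ) (C : ZMod b → ℕ) (θ : ℕ → ZMod b)
  (d : ℕ → ℤ), Sph F → Sph F' → Ann F b N C D K θ d → K ⊆ F' →
  (∀ x ∈ verts K, ∀ y ∈ verts K, Adj F' x y → Adj F x y) → Ann F' b N C D K θ d

/-- R4: the inner groups and the far vertex -/
def R4Stmt : Prop := ∀ (F0 : Finset Tri) (o : Tri) (p : ℕ → Pt), Sph F0 → Real F0 o p →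
  ∀ (L : List GD) (F : Finset Tri) (e : Tri) (v0 : ℕ), Sph F → e ∈ F → v0 ∈ verts F →
  ¬ isV v0 e →
  (∀ g ∈ L, g.Good F ∧ Side F0 (fun i => g.C (-i)) g.D ∧ Cyc F0 g.C ∧
    (∀ x, isV x o → x ∉ verts g.D) ∧ (∀ x, isV x e → x ∉ verts g.K) ∧ v0 ∉ verts g.K) →
  L.Pairwise (fun g h => Disjoint (verts g.K) (verts h.K)) →
  ∃ (G : Finset Tri) (q : ℕ → Pt),
    Red {x | x = v0 ∨ ∃ g ∈ L, x ∈ verts g.K ∧ x ∉ verts g.D} Set.univ F G ∧ Real G e q ∧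
    (verts G).card < (verts F).card ∧
    ∀ g ∈ L, ∀ t : Tri, (∀ x, isV x t → x ∈ verts g.D) → Btw p t → Btw q t

/-- R5: an instance with a vertex far from its terminals can be reduced -/
def R5Stmt : Prop := ∀ k Δ : ℕ, ∃ R, ∀ (F : Finset Tri) (o : Tri) (T : Finset ℕ)
  (Ch : Finset Tri) (v0 : ℕ), InstOk F o T Ch → T.card ≤ k → (∀ v ∈ verts F, deg F v ≤ Δ) →
  Rlz F o Ch → v0 ∈ verts F → v0 ∉ ball F T R →
  ∃ G, Red {x | x ∉ T} Set.univ F G ∧ (verts G).card < (verts F).card ∧ Rlz G o Ch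

/-! ## K. Kernels -/

/-- K1: degrees in a kernel -/
def K1Stmt : Prop := ∀ (F : Finset Tri) (T : Finset ℕ), Sph F → T ⊆ verts F →
  (∀ v ∈ verts F, v ∉ T → 6 ≤ deg F v) → ∀ v ∈ verts F, deg F v ≤ 6 * T.card + 6

/-- K2: every realisable instance can be reduced to a realisable instance of bounded size -/
def K2Stmt : Prop := ∀ k : ℕ, ∃ B, ∀ (F : Finset Tri) (o : Tri) (T : Finset ℕ) (Ch : Finset Tri),
  InstOk F o T Ch → T.card ≤ k → Rlz F o Ch →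
  ∃ G, Red {x | x ∉ T} Set.univ F G ∧ Rlz G o Ch ∧ (verts G).card ≤ B

/-! ## D. Drawings and triangulations -/

/-- D1: the rectilinear crossing number is attained -/
def D1Stmt : Prop := ∀ (n k : ℕ) (G : SimpleGraph (Fin n)),
  rcr G ≤ k ↔ ∃ p : Fin n → Pt, IsDrawing G p ∧ crossings G p ≤ k

/-- D2: from a triangulation to a drawing -/
def D2Stmt : Prop := ∀ (n k : ℕ) (G : SimpleGraph (Fin n)) (F : Finset Tri) (o : Tri)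
  (Ch : Finset Tri) (ι : Fin n → ℕ) (P : Fin n → Fin n → List ℕ) (p : ℕ → Pt), Sph F →
  Real F o p → (∀ t ∈ Ch, Btw p t) → Wit G F Ch ι P k →
  IsDrawing G (fun a => p (ι a)) ∧ crossings G (fun a => p (ι a)) ≤ k

/-- D3: from a drawing to a triangulation -/
def D3Stmt : Prop := ∀ (n k : ℕ) (G : SimpleGraph (Fin n)) (p : Fin n → Pt), IsDrawing G p →
  crossings G p ≤ k →
  ∃ (F : Finset Tri) (o : Tri) (T : Finset ℕ) (Ch : Finset Tri) (ι : Fin n → ℕ)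
    (P : Fin n → Fin n → List ℕ), InstOk F o T Ch ∧ Rlz F o Ch ∧ Wit G F Ch ι P k ∧
    T.card ≤ 5 * k + 3 ∧ (verts F).card ≤ n + k + 3 ∧
    ∀ a b, (P a b).length ≤ k

/-! ## V. The verifier -/

/-- V1: relabelling -/
def V1Stmt : Prop := ∀ (σ : Equiv.Perm ℕ) (F G : Finset Tri) (o : Tri) (Ch : Finset Tri)
  (T : Finset ℕ),
  (Sph F → Sph (F.image (mapT σ))) ∧
  (∀ u v, Ok F u v → Ok (F.image (mapT σ)) (σ u) (σ v)) ∧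
  (∀ u v, contr (F.image (mapT σ)) (σ u) (σ v) = (contr F u v).image (mapT σ)) ∧
  (Rlz F o Ch → Rlz (F.image (mapT σ)) (mapT σ o) (Ch.image (mapT σ))) ∧
  (Red {x | x ∉ T} Set.univ F G →
    Red {x | x ∉ T.image σ} Set.univ (F.image (mapT σ)) (G.image (mapT σ)))

/-- V2: the final theorem -/
def V2Stmt : Prop := ∀ k : ℕ, RCRk k ∈ NP

end Pool.Agent.H3.RCR
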